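import Pool.Agent.TH265.U.Ext
set_option autoImplicit false

/-!
The curves `(1 - y^(p+1)) ∏_{i ≤ r} (1 - e^(-i) x) = 1` and the symbols on them.
-/

namespace Pool.Agent.TH265.U

open Pool.Agent.TH826.MK (Torus KQ symb Unramified unitPart val_le_one_of_integral
  mem_unitPart_of_oneUnit' mem_unitPart_of_pow)
open Pool.Agent.TH826.MH

open scoped WithZero

section Data

/-- The numbers of roots minus one: `p` for the variable `y`, `r` for the variable `x`. -/
def rr (p r : ℕ) : Fin (1 + 1) → ℕ := Fin.cons (α := fun _ => ℕ) p fun _ => r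

variable {K : Type*} [Field K]

/-- The roots: `ζ^j`, `0 ≤ j ≤ p`, for the variable `y`, and `e^i`, `0 ≤ i ≤ r`, for the
variable `x`. -/
def rts (p r : ℕ) (ζ e : K) : ∀ k, Fin (rr p r k + 1) → K :=
  Fin.cons (α := fun k => Fin (rr p r k + 1) → K) (fun j => ζ ^ (j : ℕ)) fun _ i => e ^ (i : ℕ)

/-- The coefficient `λ = - (∏_{i ≤ r} (- e^i))⁻¹`. -/
def lm (r : ℕ) (e : K) : K := -(∏ i : Fin (r + 1), -(e ^ (i : ℕ)))⁻¹

variable (p r : ℕ) (ζ e : K)

/-- The coordinate ring of the curve `λ ∏_j (y - ζ^j) ∏_i (x - e^i) = 1`. -/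
abbrev Crv : Type _ := CRing (lm r e) (rts p r ζ e)

/-- The function `x`. -/
noncomputable def fX : Crv p r ζ e := fpol (lm r e) (rts p r ζ e) (MvPolynomial.X 1)

/-- The coordinate ring of the open part `x ≠ 0` of the curve. -/
abbrev Opn : Type _ := Loc (fX p r ζ e)

/-- The unit `x`. -/
noncomputable def uX : (Opn p r ζ e)ˣ := (isUnit_toLoc (fX p r ζ e)).unit

/-- The unit `y - ζ^j`. -/
noncomputable def uY (j : Fin (p + 1)) : (Opn p r ζ e)ˣ :=
  Units.map (toLoc (fX p r ζ e) : Crv p r ζ e →* Opn p r ζ e)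
    (ux (lm r e) (rts p r ζ e) 0 j)

/-- The unit `x - e^i`. -/
noncomputable def uE (i : Fin (r + 1)) : (Opn p r ζ e)ˣ :=
  Units.map (toLoc (fX p r ζ e) : Crv p r ζ e →* Opn p r ζ e)
    (ux (lm r e) (rts p r ζ e) 1 i)

/-- The entries of the symbol `{(y - ζ^j) / (y - ζ^(j+1)), (x - e^i) / x}`. -/
noncomputable def sym (q : Fin (r + 1) × Fin p) : Fin (1 + 1) → (Opn p r ζ e)ˣ :=
  ![uY p r ζ e q.2.castSucc / uY p r ζ e q.2.succ, uE p r ζ e q.1 / uX p r ζ e]

/-- The constants. -/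
noncomputable def cst0 : K →+* Opn p r ζ e :=
  (toLoc (fX p r ζ e)).comp ((fpol (lm r e) (rts p r ζ e)).comp MvPolynomial.C)

end Data

section Unram

variable {K : Type*} [Field K] {p r : ℕ} {ζ e : K} {L : Type*} [Field L]
  (f : Opn p r ζ e →+* L)

/-- the restriction of `f` -/
noncomputable def fC : Crv p r ζ e →+* L := f.comp (toLoc (fX p r ζ e))

/-- the image of `y` -/
noncomputable def yL : L := xL (fC f) 0

/-- the image of `x` -/
noncomputable def xxL : L := xL (fC f) 1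

/-- the images of the constants -/
noncomputable def cL : K →+* L := cst (fC f)

theorem xxL_ne_zero : xxL f ≠ 0 := ((isUnit_toLoc (fX p r ζ e)).map f).ne_zero

theorem map_sym_zero (q : Fin (r + 1) × Fin p) :
    ((Units.map (f : Opn p r ζ e →* L) (sym p r ζ e q 0) : Lˣ) : L) =
      (yL f - cL f ζ ^ (q.2 : ℕ)) / (yL f - cL f ζ ^ ((q.2 : ℕ) + 1)) := by
  have h : sym p r ζ e q 0 = uY p r ζ e q.2.castSucc / uY p r ζ e q.2.succ := rfl
  rw [h, map_div, Units.val_div_eq_div_val]
  have h1 : ∀ j : Fin (p + 1), ((Units.map (f : Opn p r ζ e →* L) (uY p r ζ e j) : Lˣ) : L) =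
      yL f - cL f ζ ^ (j : ℕ) := by
    intro j
    have h2 := map_fx (fC f) (0 : Fin (1 + 1)) (rts p r ζ e 0 j)
    have h3 : cst (fC f) (rts p r ζ e 0 j) = cL f ζ ^ (j : ℕ) := by
      show cst (fC f) (ζ ^ (j : ℕ)) = _
      rw [map_pow]
      rfl
    rw [h3] at h2
    exact h2
  rw [h1, h1]
  rfl

theorem map_sym_one (q : Fin (r + 1) × Fin p) :
    ((Units.map (f : Opn p r ζ e →* L) (sym p r ζ e q 1) : Lˣ) : L) =
      (xxL f - cL f e ^ (q.1 : ℕ)) / xxL f := by
  have h : sym p r ζ e q 1 = uE p r ζ e q.1 / uX p r ζ e := rfl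
  rw [h, map_div, Units.val_div_eq_div_val]
  have h1 : ((Units.map (f : Opn p r ζ e →* L) (uE p r ζ e q.1) : Lˣ) : L) =
      xxL f - cL f e ^ (q.1 : ℕ) := by
    have h2 := map_fx (fC f) (1 : Fin (1 + 1)) (rts p r ζ e 1 q.1)
    have h3 : cst (fC f) (rts p r ζ e 1 q.1) = cL f e ^ (q.1 : ℕ) := by
      show cst (fC f) (e ^ (q.1 : ℕ)) = _
      rw [map_pow]
      rfl
    rw [h3] at h2
    exact h2
  rw [h1]
  rfl

theorem prod_eq : cL f (lm r e) * ((∏ j : Fin (p + 1), (yL f - cL f ζ ^ (j : ℕ))) *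
    ∏ i : Fin (r + 1), (xxL f - cL f e ^ (i : ℕ))) = 1 := by
  have h := prod_xL (fC f)
  rw [Fin.prod_univ_two] at h
  have h0 : ∏ i, (xL (fC f) 0 - cst (fC f) (rts p r ζ e 0 i)) =
      ∏ j : Fin (p + 1), (yL f - cL f ζ ^ (j : ℕ)) := by
    refine Finset.prod_congr rfl fun j _ => ?_
    show yL f - cst (fC f) (ζ ^ (j : ℕ)) = _
    rw [map_pow]
    rfl
  have h1 : ∏ i, (xL (fC f) 1 - cst (fC f) (rts p r ζ e 1 i)) =
      ∏ i : Fin (r + 1), (xxL f - cL f e ^ (i : ℕ)) := by
    refine Finset.prod_congr rfl fun j _ => ?_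
    show xxL f - cst (fC f) (e ^ (j : ℕ)) = _
    rw [map_pow]
    rfl
  rw [h0, h1] at h
  exact h

theorem prod_roots {F : Type*} [CommRing F] [IsDomain F] {z : F}
    (hz : IsPrimitiveRoot z (p + 1)) (y : F) :
    ∏ j : Fin (p + 1), (y - z ^ (j : ℕ)) = y ^ (p + 1) - 1 := by
  classical
  have h1 := hz.pow_sub_pow_eq_prod_sub_mul y 1 (Nat.succ_pos p)
  rw [one_pow] at h1
  have hset : Polynomial.nthRootsFinset (p + 1) (1 : F) =
      Finset.univ.image fun j : Fin (p + 1) => z ^ (j : ℕ) := by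
    ext ξ
    rw [Polynomial.mem_nthRootsFinset (Nat.succ_pos p), Finset.mem_image]
    constructor
    · intro h
      obtain ⟨i, hi, rfl⟩ := hz.eq_pow_of_pow_eq_one h
      exact ⟨⟨i, hi⟩, Finset.mem_univ _, rfl⟩
    · rintro ⟨j, -, rfl⟩
      rw [← pow_mul, mul_comm, pow_mul, hz.pow_eq_one, one_pow]
  rw [h1, hset, Finset.prod_image]
  · simp
  · intro i _ j _ hij
    exact Fin.ext (hz.pow_inj i.isLt j.isLt hij)

theorem val_pow_sub_one_lt {v : Valuation L ℤᵐ⁰} {x : L} (hx : v (x - 1) < 1) (n : ℕ) :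
    v (x ^ n - 1) < 1 := by
  have hx1 : v x ≤ 1 := by
    have : x = (x - 1) + 1 := by ring
    rw [this]
    exact (v.map_add _ _).trans (max_le hx.le (by rw [map_one]))
  induction n with
  | zero => simp
  | succ n ih =>
    have e : x ^ (n + 1) - 1 = (x ^ n - 1) * x + (x - 1) := by ring
    rw [e]
    refine (v.map_add _ _).trans_lt (max_lt ?_ hx)
    rw [map_mul]
    exact mul_lt_one_of_lt_of_le ih hx1

theorem val_prod_sub_lt {v : Valuation L ℤᵐ⁰} {x : L} (hx : v x < 1) {ι : Type*}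
    (s : Finset ι) (a : ι → L) (ha : ∀ i, v (a i) ≤ 1) :
    v (∏ i ∈ s, (x - a i) - ∏ i ∈ s, -a i) < 1 := by
  classical
  induction s using Finset.induction_on with
  | empty => simp
  | insert i s hi ih =>
    rw [Finset.prod_insert hi, Finset.prod_insert hi]
    have e : (x - a i) * ∏ j ∈ s, (x - a j) - -a i * ∏ j ∈ s, -a j =
        x * ∏ j ∈ s, (x - a j) + -a i * (∏ j ∈ s, (x - a j) - ∏ j ∈ s, -a j) := by ring
    rw [e]
    refine (v.map_add _ _).trans_lt (max_lt ?_ ?_)
    · rw [map_mul, map_prod]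
      refine mul_lt_one_of_lt_of_le hx (Finset.prod_le_one' fun j _ => ?_)
      exact (v.map_sub _ _).trans (max_le hx.le (ha j))
    · rw [map_mul, Valuation.map_neg]
      rw [mul_comm]
      exact mul_lt_one_of_lt_of_le ih (ha i)

theorem eqn_eq (hζ : IsPrimitiveRoot ζ (p + 1)) (he0 : e ≠ 0) :
    eqn (lm r e) (rts p r ζ e) = (1 - MvPolynomial.X 0 ^ (p + 1)) *
      ∏ i : Fin (r + 1), (1 - MvPolynomial.C (e ^ (i : ℕ))⁻¹ * MvPolynomial.X 1) - 1 := by
  have hζC : IsPrimitiveRoot (MvPolynomial.C ζ : MvPolynomial (Fin (1 + 1)) K) (p + 1) :=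
    hζ.map_of_injective (MvPolynomial.C_injective _ _)
  have h1 := prod_roots hζC (MvPolynomial.X 0 : MvPolynomial (Fin (1 + 1)) K)
  have h2 : ∏ i : Fin (r + 1), (1 - MvPolynomial.C (e ^ (i : ℕ))⁻¹ * MvPolynomial.X 1 :
      MvPolynomial (Fin (1 + 1)) K) = MvPolynomial.C (∏ i : Fin (r + 1), -(e ^ (i : ℕ)))⁻¹ *
        ∏ i : Fin (r + 1), (MvPolynomial.X 1 - MvPolynomial.C (e ^ (i : ℕ))) := by
    rw [← Finset.prod_inv_distrib, map_prod, ← Finset.prod_mul_distrib]
    refine Finset.prod_congr rfl fun i _ => ?_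
    have h3 : (MvPolynomial.C (e ^ (i : ℕ))⁻¹ * MvPolynomial.C (e ^ (i : ℕ)) :
        MvPolynomial (Fin (1 + 1)) K) = 1 := by
      rw [← map_mul, inv_mul_cancel₀ (pow_ne_zero _ he0), map_one]
    rw [inv_neg, map_neg]
    linear_combination -h3
  unfold eqn
  rw [Fin.prod_univ_two, h2]
  have h4 : ∏ j, (MvPolynomial.X 0 - MvPolynomial.C (rts p r ζ e 0 j) :
      MvPolynomial (Fin (1 + 1)) K) = MvPolynomial.X 0 ^ (p + 1) - 1 := by
    rw [← h1]
    refine Finset.prod_congr rfl fun j _ => ?_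
    show MvPolynomial.X 0 - MvPolynomial.C (ζ ^ (j : ℕ)) = _
    rw [map_pow]
  have h5 : ∏ i, (MvPolynomial.X 1 - MvPolynomial.C (rts p r ζ e 1 i) :
      MvPolynomial (Fin (1 + 1)) K) =
      ∏ i : Fin (r + 1), (MvPolynomial.X 1 - MvPolynomial.C (e ^ (i : ℕ))) := rfl
  rw [h4, h5]
  unfold lm
  rw [map_neg]
  ring

/-- The symbols are unramified at all discrete valuations. -/
theorem sym_mem_unitPart (hζ : IsPrimitiveRoot ζ (p + 1)) (he : IsIntegral ℤ e)
    (he' : IsIntegral ℤ e⁻¹) (he0 : e ≠ 0)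
    (v : Valuation L ℤᵐ⁰) (q : Fin (r + 1) × Fin p) :
    symb (fun l => Units.map (f : Opn p r ζ e →* L) (sym p r ζ e q l)) ∈ unitPart v (1 + 1) := by
  have hc : ∀ c : K, IsIntegral ℤ c → v (cL f c) ≤ 1 := fun c hc =>
    val_le_one_of_integral v (map_isIntegral_int _ hc)
  have hζi : IsIntegral ℤ ζ := hζ.isIntegral (Nat.succ_pos p)
  have hζ1 : v (cL f ζ) = 1 := by
    have h1 : (v (cL f ζ)) ^ (p + 1) = 1 := by
      rw [← map_pow, ← map_pow, hζ.pow_eq_one, map_one, map_one]
    exact (pow_eq_one_iff_of_nonneg zero_le (Nat.succ_ne_zero p)).1 h1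
  have he1 : v (cL f e) = 1 := by
    refine le_antisymm (hc e he) ?_
    have h1 : v (cL f e) * v (cL f e⁻¹) = 1 := by
      rw [← map_mul, ← map_mul, mul_inv_cancel₀ he0, map_one, map_one]
    rw [← h1]
    exact mul_le_of_le_one_right' (hc _ he')
  have hlam1 : v (cL f (lm r e)) = 1 := by
    unfold lm
    rw [map_neg, Valuation.map_neg, map_inv₀, map_inv₀, map_prod, map_prod,
      Finset.prod_eq_one, inv_one]
    intro i _
    rw [map_neg, Valuation.map_neg, map_pow, map_pow, he1, one_pow]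
  have hy1 : ∀ j : ℕ, v (cL f ζ ^ j) = 1 := fun j => by rw [map_pow, hζ1, one_pow]
  have hx1 : ∀ j : ℕ, v (cL f e ^ j) = 1 := fun j => by rw [map_pow, he1, one_pow]
  have hprod := prod_eq f
  have hx0 := xxL_ne_zero f
  have hy0 : ∀ j : Fin (p + 1), yL f - cL f ζ ^ (j : ℕ) ≠ 0 := by
    intro j h
    rw [Finset.prod_eq_zero (Finset.mem_univ j) h, zero_mul, mul_zero] at hprod
    exact zero_ne_one hprod
  by_cases hA : 1 < v (yL f)
  · refine mem_unitPart_of_oneUnit' v 0 _ ?_
    have h0 := hy0 q.2.succ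
    rw [Fin.val_succ] at h0
    rw [map_sym_zero, div_sub_one h0, map_div₀]
    have h1 : v (yL f - cL f ζ ^ ((q.2 : ℕ) + 1)) = v (yL f) :=
      Valuation.map_sub_eq_of_lt_left v ((hy1 _).le.trans_lt hA)
    have h2 : v (yL f - cL f ζ ^ (q.2 : ℕ) - (yL f - cL f ζ ^ ((q.2 : ℕ) + 1))) ≤ 1 := by
      have e2 : yL f - cL f ζ ^ (q.2 : ℕ) - (yL f - cL f ζ ^ ((q.2 : ℕ) + 1)) =
        cL f ζ ^ ((q.2 : ℕ) + 1) - cL f ζ ^ (q.2 : ℕ) := by ring
      rw [e2]
      exact (v.map_sub _ _).trans (max_le (hy1 _).le (hy1 _).le)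
    rw [h1, div_lt_one₀ (zero_lt_one.trans hA)]
    exact h2.trans_lt hA
  · by_cases hB : 1 < v (xxL f)
    · refine mem_unitPart_of_oneUnit' v 1 _ ?_
      have e2 : (xxL f - cL f e ^ (q.1 : ℕ)) / xxL f - 1 = -(cL f e ^ (q.1 : ℕ)) / xxL f := by
        field_simp
        ring
      rw [map_sym_one, e2, map_div₀, Valuation.map_neg, hx1, div_lt_one₀ (zero_lt_one.trans hB)]
      exact hB
    · rw [not_lt] at hA hB
      have hys : ∀ j : ℕ, v (yL f - cL f ζ ^ j) ≤ 1 := fun j =>
        (v.map_sub _ _).trans (max_le hA (hy1 j).le)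
      have hxs : ∀ j : ℕ, v (xxL f - cL f e ^ j) ≤ 1 := fun j =>
        (v.map_sub _ _).trans (max_le hB (hx1 j).le)
      have hone := congrArg v hprod
      rw [map_mul, map_mul, hlam1, one_mul, map_one, map_prod, map_prod] at hone
      have hle1 : ∏ j : Fin (p + 1), v (yL f - cL f ζ ^ (j : ℕ)) ≤ 1 :=
        Finset.prod_le_one' fun j _ => hys j
      have hle2 : ∏ i : Fin (r + 1), v (xxL f - cL f e ^ (i : ℕ)) ≤ 1 :=
        Finset.prod_le_one' fun j _ => hxs j
      have hP1 : ∏ j : Fin (p + 1), v (yL f - cL f ζ ^ (j : ℕ)) = 1 := by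
        refine le_antisymm hle1 ?_
        rw [← hone]
        exact mul_le_of_le_one_right' hle2
      have hP2 : ∏ i : Fin (r + 1), v (xxL f - cL f e ^ (i : ℕ)) = 1 := by
        refine le_antisymm hle2 ?_
        rw [← hone]
        exact mul_le_of_le_one_left' hle1
      have hyv : ∀ j : Fin (p + 1), v (yL f - cL f ζ ^ (j : ℕ)) = 1 := by
        intro j
        refine le_antisymm (hys j) ?_
        rw [← hP1, ← Finset.mul_prod_erase _ _ (Finset.mem_univ j)]
        exact mul_le_of_le_one_right' (Finset.prod_le_one' fun j _ => hys j)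
      have hxv : ∀ j : Fin (r + 1), v (xxL f - cL f e ^ (j : ℕ)) = 1 := by
        intro j
        refine le_antisymm (hxs j) ?_
        rw [← hP2, ← Finset.mul_prod_erase _ _ (Finset.mem_univ j)]
        exact mul_le_of_le_one_right' (Finset.prod_le_one' fun j _ => hxs j)
      have hyc := hyv q.2.castSucc
      have hyss := hyv q.2.succ
      rw [Fin.val_castSucc] at hyc
      rw [Fin.val_succ] at hyss
      rcases hB.lt_or_eq with hB1 | hB1
      · -- `x` is in the maximal ideal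
        have hcong := val_prod_sub_lt hB1 Finset.univ (fun i : Fin (r + 1) => cL f e ^ (i : ℕ))
          (fun i => (hx1 i).le)
        set P : L := ∏ i : Fin (r + 1), (xxL f - cL f e ^ (i : ℕ)) with hP
        set Q : L := ∏ i : Fin (r + 1), -(cL f e ^ (i : ℕ)) with hQ
        have hQ0 : Q ≠ 0 := by
          rw [hQ]
          refine Finset.prod_ne_zero_iff.2 fun i _ => neg_ne_zero.2 (pow_ne_zero _ ?_)
          exact (map_ne_zero _).2 he0
        have hlm : cL f (lm r e) = -Q⁻¹ := by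
          unfold lm
          rw [map_neg, map_inv₀, map_prod, hQ]
          congr 2
          refine Finset.prod_congr rfl fun i _ => ?_
          rw [map_neg, map_pow]
        have hζL : IsPrimitiveRoot (cL f ζ) (p + 1) := hζ.map_of_injective (cL f).injective
        have hN : ∏ j : Fin (p + 1), (yL f - cL f ζ ^ (j : ℕ)) = yL f ^ (p + 1) - 1 := by
          exact prod_roots hζL (yL f)
        have hQv : v Q = 1 := by
          rw [hQ, map_prod]
          exact Finset.prod_eq_one fun i _ => by rw [Valuation.map_neg, hx1]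
        rw [hN, hlm] at hprod
        have hP0 : P ≠ 0 := by
          rintro e2
          rw [e2] at hprod
          simp at hprod
        have hyN : yL f ^ (p + 1) = (P - Q) / P := by
          field_simp
          have h3 : -Q⁻¹ * ((yL f ^ (p + 1) - 1) * P) * Q = 1 * Q := by rw [hprod]
          have h4 : (yL f ^ (p + 1) - 1) * P * (-(Q⁻¹ * Q)) = Q := by linear_combination h3
          rw [inv_mul_cancel₀ hQ0] at h4
          linear_combination -h4
        have hPv : v P = 1 := by rw [hP, map_prod]; exact hP2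
        have hyv1 : v (yL f) < 1 := by
          have h1 : v (yL f) ^ (p + 1) < 1 := by
            rw [← map_pow, hyN, map_div₀, hPv, div_one]
            exact hcong
          by_contra hcon
          exact absurd h1 (not_lt.2 (one_le_pow_of_one_le' (not_lt.1 hcon) _))
        refine mem_unitPart_of_pow v 0 (m := p + 1) _ (Nat.succ_ne_zero p) ?_
        rw [map_sym_zero]
        have hz0 : cL f ζ ≠ 0 := (map_ne_zero _).2 (hζ.ne_zero (Nat.succ_ne_zero p))
        have hd0 := hy0 q.2.succ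
        rw [Fin.val_succ] at hd0
        set w : L := (yL f - cL f ζ ^ (q.2 : ℕ)) / (yL f - cL f ζ ^ ((q.2 : ℕ) + 1)) with hw
        have hw1 : v (cL f ζ * w - 1) < 1 := by
          have e3 : cL f ζ * w - 1 = (cL f ζ - 1) * yL f /
              (yL f - cL f ζ ^ ((q.2 : ℕ) + 1)) := by
            rw [hw]
            field_simp
            ring
          rw [e3, map_div₀, hyss, div_one, map_mul, mul_comm]
          refine mul_lt_one_of_lt_of_le hyv1 ?_
          exact (v.map_sub _ _).trans (max_le hζ1.le (by rw [map_one]))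
        have h5 := val_pow_sub_one_lt hw1 (p + 1)
        rwa [mul_pow, ← map_pow, hζ.pow_eq_one, map_one, one_mul] at h5
      · refine Submodule.subset_span ⟨_, fun l => ?_, rfl⟩
        refine Fin.cases ?_ (fun l => ?_) l
        · rw [map_sym_zero, map_div₀, hyc, hyss, div_one]
        · have hl : l.succ = (1 : Fin (1 + 1)) := by
            have := Fin.fin_one_eq_zero l
            subst this
            rfl
          rw [hl, map_sym_one, map_div₀, hxv, hB1, div_one]

theorem sym_mem_unramified (hζ : IsPrimitiveRoot ζ (p + 1)) (he : IsIntegral ℤ e)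
    (he' : IsIntegral ℤ e⁻¹) (he0 : e ≠ 0) (q : Fin (r + 1) × Fin p) :
    KQ.map (1 + 1) f (symb (sym p r ζ e q)) ∈ Unramified L (1 + 1) := by
  rw [KQ.map_symb]
  unfold Unramified
  simp only [Submodule.mem_iInf]
  intro v _
  exact sym_mem_unitPart f hζ he he' he0 v q

end Unram

end Pool.Agent.TH265.U
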