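import Pool.Agent.TH826.MH.Final
set_option autoImplicit false

/-!
Inverting one function: the ring, and the tori in it.
-/

namespace Pool.Agent.TH265.U

open Polynomial

open Pool.Agent.TH826.MK (Torus KQ symb)

section Ext

variable {A : Type*} [CommRing A] (u : A)

/-- The polynomial `u T - 1`. -/
noncomputable def locEqn : A[X] := C u * X - 1

/-- The ring obtained from `A` by adjoining `T` with `u T = 1`. -/
def Loc : Type _ := AdjoinRoot (locEqn u)

noncomputable instance : CommRing (Loc u) := AdjoinRoot.instCommRing (locEqn u)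

/-- The map `A → A[1/u]`. -/
noncomputable def toLoc : A →+* Loc u := AdjoinRoot.of (locEqn u)

theorem isUnit_toLoc : IsUnit (toLoc u u) := by
  have h := AdjoinRoot.mk_self (f := locEqn u)
  have h2 : AdjoinRoot.mk (locEqn u) (locEqn u) = AdjoinRoot.of (locEqn u) u *
      AdjoinRoot.root (locEqn u) - 1 := by
    conv_lhs => rw [show AdjoinRoot.mk (locEqn u) (locEqn u) = AdjoinRoot.mk (locEqn u)
      (Polynomial.C u * Polynomial.X - 1) from rfl]
    rw [map_sub, map_mul, map_one, AdjoinRoot.mk_X, AdjoinRoot.mk_C]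
  rw [h2, sub_eq_zero] at h
  exact IsUnit.of_mul_eq_one _ h

section lift

variable {S : Type*} [Field S]

/-- The extension of a homomorphism with `g u ≠ 0` to `A[1/u]`. -/
noncomputable def liftLoc (g : A →+* S) (hg : g u ≠ 0) : Loc u →+* S :=
  AdjoinRoot.lift g (g u)⁻¹ (by
    unfold locEqn
    simp only [Polynomial.eval₂_sub, Polynomial.eval₂_mul, Polynomial.eval₂_X,
      Polynomial.eval₂_C, Polynomial.eval₂_one]
    rw [mul_inv_cancel₀ hg, sub_self])

theorem liftLoc_toLoc (g : A →+* S) (hg : g u ≠ 0) (b : A) :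
    liftLoc u g hg (toLoc u b) = g b :=
  AdjoinRoot.lift_of _

theorem liftLoc_mk (g : A →+* S) (hg : g u ≠ 0) (p : A[X]) :
    liftLoc u g hg (AdjoinRoot.mk (locEqn u) p : AdjoinRoot (locEqn u)) =
      p.eval₂ g (g u)⁻¹ :=
  AdjoinRoot.lift_mk _ p

theorem liftLoc_congr {g g' : A →+* S} (hg : g u ≠ 0) (hg' : g' u ≠ 0) (h : g = g') :
    liftLoc u g hg = liftLoc u g' hg' := by
  subst h
  rfl

end lift

/-- A torus on which `u` does not vanish, as a torus in the open part `u ≠ 0`. -/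
noncomputable def extTorus {d : ℕ} (Γ : Torus A d) (h : ∀ θ, Γ.e θ u ≠ 0) : Torus (Loc u) d where
  e θ := liftLoc u (Γ.e θ) (h θ)
  smooth x := by
    obtain ⟨p, hp⟩ := AdjoinRoot.mk_surjective (g := locEqn u) x
    have e : (fun θ => liftLoc u (Γ.e θ) (h θ) x) = fun θ =>
        ∑ i ∈ Finset.range (p.natDegree + 1), Γ.e θ (p.coeff i) * (Γ.e θ u)⁻¹ ^ i := by
      funext θ
      rw [← hp, liftLoc_mk, Polynomial.eval₂_eq_sum_range]
    rw [e]
    exact ContDiff.sum fun i _ => (Γ.smooth _).mul (((Γ.smooth u).inv h).pow i)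
  periodic θ i := liftLoc_congr u _ _ (Γ.periodic θ i)

theorem extTorus_toLoc {d : ℕ} (Γ : Torus A d) (h : ∀ θ, Γ.e θ u ≠ 0) (a : A)
    (θ : Fin d → ℝ) : (extTorus u Γ h).e θ (toLoc u a) = Γ.e θ a :=
  liftLoc_toLoc u (Γ.e θ) (h θ) a

end Ext

end Pool.Agent.TH265.U
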