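import Pool.Agent.TH265.U.Tor
set_option autoImplicit false

/-!
Nonvanishing of the determinant of the regulators over two places.
-/

namespace Pool.Agent.TH265.U

open Pool.Agent.TH826.MK
open Pool.Agent.TH826.MH (wt abs_wt_le wt_self wt_ne)

universe v

/-- the index of the loop -/
def lp {r p : ℕ} (t : Fin (r + 1) × Fin p) : ℕ := if t.1 = 0 then r - 1 else (t.1 : ℕ) - 1

theorem exists_unif (p r : ℕ) : ∃ L0 B : ℝ, 0 ≤ L0 ∧ 0 ≤ B ∧
    ∀ {K : Type v} [Field K] (σ : K →+* ℂ) (ζ e : K), IsPrimitiveRoot ζ (p + 1) → e ≠ 0 →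
      L0 ≤ |Real.log ‖σ e‖| → ∀ t < r, ∀ j0 : Fin p, ∃ Γ : Torus (Opn p r ζ e) 1,
        (∀ θ x, Γ.e θ (cst0 p r ζ e x) = σ x) ∧
        ∀ q : Fin (r + 1) × Fin p, |Γ.reg (symb (sym p r ζ e q)) -
          2 * Real.pi * (wt j0 q.2 * Mt (σ e) r t q.1)| ≤ B := by
  classical
  choose L B h using fun (ω : {ω : ℂ // IsPrimitiveRoot ω (p + 1)}) (j0 : Fin p) =>
    exists_loop.{v} p r ω.1 ω.2 j0
  have hfin : Finite {ω : ℂ // IsPrimitiveRoot ω (p + 1)} := by
    have : {ω : ℂ | IsPrimitiveRoot ω (p + 1)} ⊆ (primitiveRoots (p + 1) ℂ : Set ℂ) := by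
      intro ω hω
      exact (mem_primitiveRoots (Nat.succ_pos p)).2 hω
    exact ((primitiveRoots (p + 1) ℂ).finite_toSet.subset this).to_subtype
  have := Fintype.ofFinite {ω : ℂ // IsPrimitiveRoot ω (p + 1)}
  refine ⟨∑ ω, ∑ j, |L ω j|, ∑ ω, ∑ j, |B ω j|,
    Finset.sum_nonneg fun _ _ => Finset.sum_nonneg fun _ _ => abs_nonneg _,
    Finset.sum_nonneg fun _ _ => Finset.sum_nonneg fun _ _ => abs_nonneg _, ?_⟩
  intro K _ σ ζ e hζ he hL t ht j0
  have hω : IsPrimitiveRoot (σ ζ) (p + 1) := hζ.map_of_injective σ.injective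
  have key : ∀ f : {ω : ℂ // IsPrimitiveRoot ω (p + 1)} → Fin p → ℝ,
      f ⟨σ ζ, hω⟩ j0 ≤ ∑ ω, ∑ j, |f ω j| := by
    intro f
    have h1 : |f ⟨σ ζ, hω⟩ j0| ≤ ∑ j, |f ⟨σ ζ, hω⟩ j| :=
      Finset.single_le_sum (f := fun j => |f ⟨σ ζ, hω⟩ j|) (fun j _ => abs_nonneg _)
        (Finset.mem_univ j0)
    have h2 : ∑ j, |f ⟨σ ζ, hω⟩ j| ≤ ∑ ω, ∑ j, |f ω j| :=
      Finset.single_le_sum (f := fun ω => ∑ j, |f ω j|)
        (fun ω _ => Finset.sum_nonneg fun j _ => abs_nonneg _) (Finset.mem_univ _)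
    exact (le_abs_self _).trans (h1.trans h2)
  obtain ⟨Γ, hΓ1, hΓ2⟩ := h ⟨σ ζ, hω⟩ j0 σ ζ e rfl he ((key L).trans hL) t ht
  exact ⟨Γ, hΓ1, fun q => (hΓ2 q).trans (key B)⟩

theorem exists_det (p r : ℕ) (hr : 1 ≤ r) : ∃ c : ℝ, 1 < c ∧
    ∀ {K : Type v} [Field K] (σ τ : K →+* ℂ) (ζ e : K), IsPrimitiveRoot ζ (p + 1) →
      c ≤ ‖σ e‖ → ‖τ e‖ * c ≤ 1 →
      ∃ Γ : Fin (r + 1) × Fin p → Torus (Opn p r ζ e) 1,
        (∀ t θ x, (Γ t).e θ (cst0 p r ζ e x) = if t.1 = 0 then τ x else σ x) ∧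
        (Matrix.of fun t q => (Γ t).reg (symb (sym p r ζ e q))).det ≠ 0 := by
  classical
  obtain ⟨L0, B0, hL0, hB0, h⟩ := exists_unif.{v} p r
  set n : ℕ := Fintype.card (Fin (r + 1) × Fin p) with hn
  set B : ℝ := (r + 1) * r + 2 with hB
  have hB2 : 2 ≤ B := by
    have : (0 : ℝ) ≤ (r + 1) * r := by positivity
    linarith
  set S : ℝ := n + n.factorial * B ^ n with hS
  have hS0 : 0 < S := by
    have : 0 < (n.factorial : ℝ) * B ^ n := by
      have := Nat.factorial_pos n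
      positivity
    have h2 : 0 ≤ (n : ℝ) := Nat.cast_nonneg n
    rw [hS]
    linarith
  set δ : ℝ := 1 / (S + 1) with hδdef
  have hδ : 0 < δ := by rw [hδdef]; positivity
  have hδ1 : δ ≤ 1 := by
    rw [hδdef, div_le_one (by positivity)]
    linarith
  have hsmall : (n : ℝ) * δ + (n.factorial * B ^ n) * δ < 1 := by
    rw [← add_mul, ← hS, hδdef, mul_one_div, div_lt_one (by positivity)]
    linarith
  set Λ : ℝ := L0 + B0 / δ + 1 with hΛ
  have hBδ : 0 ≤ B0 / δ := by positivity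
  have hΛ1 : 1 ≤ Λ := by linarith
  have hΛB : B0 ≤ δ * Λ := by
    have : B0 / δ ≤ Λ := by linarith
    rw [div_le_iff₀ hδ] at this
    linarith
  refine ⟨Real.exp Λ, by
    rw [← Real.exp_zero]
    exact Real.exp_lt_exp.2 (by linarith), ?_⟩
  intro K _ σ τ ζ e hζ hσ hτ
  have hσ0 : 0 < ‖σ e‖ := (Real.exp_pos Λ).trans_le hσ
  have he : e ≠ 0 := by
    rintro rfl
    rw [map_zero, norm_zero] at hσ0
    exact lt_irrefl _ hσ0
  have hσe : σ e ≠ 0 := (map_ne_zero σ).2 he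
  have hτe : τ e ≠ 0 := (map_ne_zero τ).2 he
  have hlσ : Λ ≤ Real.log ‖σ e‖ := by
    have := Real.log_le_log (Real.exp_pos Λ) hσ
    rwa [Real.log_exp] at this
  have hlτ : Real.log ‖τ e‖ ≤ -Λ := by
    have h1 : ‖τ e‖ ≤ Real.exp (-Λ) := by
      rw [Real.exp_neg, ← one_div, le_div_iff₀ (Real.exp_pos Λ)]
      exact hτ
    have := Real.log_le_log (norm_pos_iff.2 hτe) h1
    rwa [Real.log_exp] at this
  -- the place of a row
  set pl : Fin (r + 1) × Fin p → (K →+* ℂ) := fun t => if t.1 = 0 then τ else σ with hpl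
  have hplL : ∀ t, Λ ≤ |Real.log ‖pl t e‖| := by
    intro t
    simp only [hpl]
    split_ifs
    · rw [abs_of_nonpos (by linarith)]
      linarith
    · rw [abs_of_nonneg (by linarith)]
      exact hlσ
  have hlp : ∀ t : Fin (r + 1) × Fin p, lp t < r := by
    intro t
    unfold lp
    split_ifs with h1
    · omega
    · have := t.1.isLt
      have h2 : (t.1 : ℕ) ≠ 0 := fun h3 => h1 (Fin.ext h3)
      omega
  choose Γ hΓ1 hΓ2 using fun t : Fin (r + 1) × Fin p =>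
    h (pl t) ζ e hζ he (by linarith [hplL t]) (lp t) (hlp t) t.2
  refine ⟨Γ, ?_, ?_⟩
  · intro t θ x
    rw [hΓ1]
    simp only [hpl]
    split_ifs <;> rfl
  have hpi := Real.pi_gt_three
  have hmt : ∀ t : Fin (r + 1) × Fin p,
      |Real.log ‖pl t e‖| ≤ Mt (pl t e) r (lp t) (t.1 : ℕ) := by
    intro t
    by_cases h1 : t.1 = 0
    · have h2 : pl t = τ := by simp only [hpl]; rw [if_pos h1]
      have h3 : lp t = r - 1 := by unfold lp; rw [if_pos h1]
      rw [h2, h3, h1]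
      exact le_Mt_of_neg hτe (by linarith) hr
    · have h2 : pl t = σ := by simp only [hpl]; rw [if_neg h1]
      have h3 : (t.1 : ℕ) ≠ 0 := fun h3 => h1 (Fin.ext h3)
      have h4 : (t.1 : ℕ) = lp t + 1 := by
        unfold lp
        rw [if_neg h1]
        omega
      rw [h2]
      have h5 := le_Mt_of_pos (r := r) (t := lp t) hσe (by linarith) (hlp t)
      rw [← h4] at h5
      rw [abs_of_nonneg (by linarith)]
      exact h5
  set D : Fin (r + 1) × Fin p → ℝ := fun t => 2 * Real.pi * Mt (pl t e) r (lp t) (t.1 : ℕ)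
    with hD
  have hDΛ : ∀ t, Λ ≤ D t := by
    intro t
    have h1 := (hplL t).trans (hmt t)
    simp only [hD]
    nlinarith
  have hDB : ∀ t, B0 ≤ δ * D t := fun t =>
    hΛB.trans (mul_le_mul_of_nonneg_left (hDΛ t) hδ.le)
  refine det_ne_zero_of_near (fun q => (q.1 : ℕ) + (p - (q.2 : ℕ))) hB2 hδ hδ1 hsmall _ D
    (fun t => by linarith [hDΛ t]) ?_ ?_ ?_
  · intro t
    have h1 := hΓ2 t t
    rw [wt_self, one_mul] at h1
    exact h1.trans (hDB t)
  · intro t q hne hh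
    have h0 : wt t.2 q.2 * Mt (pl t e) r (lp t) (q.1 : ℕ) = 0 := by
      by_cases hw : wt t.2 q.2 = 0
      · rw [hw, zero_mul]
      · have h2 : (q.2 : ℕ) ≤ t.2 := by
          rcases wt_ne hw with h3 | h3
          · rw [h3]
          · omega
        have h4 := t.2.isLt
        have h5 : (q.1 : ℕ) < t.1 := by
          by_contra hcon
          have h6 : (t.1 : ℕ) ≤ q.1 := Nat.le_of_not_lt hcon
          have hh' : (q.1 : ℕ) + (p - (q.2 : ℕ)) ≤ (t.1 : ℕ) + (p - (t.2 : ℕ)) := hh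
          have h7 : (q.1 : ℕ) = t.1 := by omega
          have h8 : (q.2 : ℕ) = t.2 := by omega
          exact hne (Prod.ext (Fin.ext h7) (Fin.ext h8))
        have h1 : t.1 ≠ 0 := by
          intro h9
          rw [h9] at h5
          simp at h5
        have h2' : pl t = σ := by simp only [hpl]; rw [if_neg h1]
        have h4' : (q.1 : ℕ) ≤ lp t := by
          unfold lp
          rw [if_neg h1]
          omega
        rw [h2', Mt_eq_zero hσe (by linarith) h4', mul_zero]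
    have h1 := hΓ2 t q
    rw [h0, mul_zero, sub_zero] at h1
    exact h1.trans (hDB t)
  · intro t q _
    have h1 := hΓ2 t q
    have h2 := abs_Mt_le (r := r) (t := lp t) (u := pl t e) (Nat.lt_succ_iff.1 q.1.isLt)
    have h3 := hmt t
    have h4 : |2 * Real.pi * (wt t.2 q.2 * Mt (pl t e) r (lp t) (q.1 : ℕ))| ≤
        (r + 1) * r * D t := by
      rw [abs_mul, abs_of_pos (by positivity : (0 : ℝ) < 2 * Real.pi), abs_mul]
      have h5 : |wt t.2 q.2| * |Mt (pl t e) r (lp t) (q.1 : ℕ)| ≤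
          (r + 1) * (r * Mt (pl t e) r (lp t) (t.1 : ℕ)) := by
        calc |wt t.2 q.2| * |Mt (pl t e) r (lp t) (q.1 : ℕ)| ≤
              1 * ((r + 1) * (r * |Real.log ‖pl t e‖|)) :=
              mul_le_mul (abs_wt_le _ _) h2 (abs_nonneg _) zero_le_one
          _ = (r + 1) * (r * |Real.log ‖pl t e‖|) := one_mul _
          _ ≤ _ := by gcongr
      calc 2 * Real.pi * (|wt t.2 q.2| * |Mt (pl t e) r (lp t) (q.1 : ℕ)|) ≤
            2 * Real.pi * ((r + 1) * (r * Mt (pl t e) r (lp t) (t.1 : ℕ))) :=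
            mul_le_mul_of_nonneg_left h5 (by positivity)
        _ = _ := by simp only [hD]; ring
    have h6 : |(Γ t).reg (symb (sym p r ζ e q))| ≤ (r + 1) * r * D t + B0 := by
      have c1 := abs_le.1 h1
      have c4 := abs_le.1 h4
      rw [abs_le]
      constructor <;> linarith [c1.1, c1.2, c4.1, c4.2]
    have h7 := hDB t
    have h8 : δ * D t ≤ 1 * D t := mul_le_mul_of_nonneg_right hδ1 (by linarith [hDΛ t])
    have h9 : 0 ≤ D t := by linarith [hDΛ t]
    show |(Γ t).reg (symb (sym p r ζ e q))| ≤ B * D t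
    rw [hB]
    linarith

end Pool.Agent.TH265.U
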