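import Pool.Agent.TH265.U.Tor
set_option autoImplicit false

/-!
Units of number fields with a large and a small conjugate, and the roots of the equation.
-/

namespace Pool.Agent.TH265.U

open Pool.Agent.TH826.MH (eqn CRing fpol)

/-- A unit which is not a root of unity has a conjugate outside the unit circle. -/
theorem exists_gt {K : Type*} [Field K] [NumberField K] {e : K} (he : IsIntegral ℤ e)
    (he0 : e ≠ 0) (hne : ∀ n : ℕ, 0 < n → e ^ n ≠ 1) : ∃ σ : K →+* ℂ, 1 < ‖σ e‖ := by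
  by_contra hcon
  push Not at hcon
  obtain ⟨n, hn, h⟩ :=
    NumberField.Embeddings.pow_eq_one_of_norm_le_one K ℂ he0 he fun φ => hcon φ
  exact hne n hn h

/-- Powers of a unit of infinite order satisfy the condition of the theorem. -/
theorem exists_pow {K : Type*} [Field K] [NumberField K] {e : K} (he : IsIntegral ℤ e)
    (he' : IsIntegral ℤ e⁻¹) (hne : ∀ n : ℕ, 0 < n → e ^ n ≠ 1) (he0 : e ≠ 0) (c : ℝ) :
    ∃ (σ τ : K →+* ℂ) (M : ℕ), ∀ m ≥ M, c ≤ ‖σ (e ^ m)‖ ∧ ‖τ (e ^ m)‖ * c ≤ 1 := by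
  obtain ⟨σ, hσ⟩ := exists_gt he he0 hne
  obtain ⟨τ, hτ⟩ := exists_gt he' (inv_ne_zero he0) fun n hn h => by
    rw [inv_pow, inv_eq_one] at h
    exact hne n hn h
  obtain ⟨M1, hM1⟩ := pow_unbounded_of_one_lt c hσ
  obtain ⟨M2, hM2⟩ := pow_unbounded_of_one_lt c hτ
  refine ⟨σ, τ, max M1 M2, fun m hm => ⟨?_, ?_⟩⟩
  · rw [map_pow, norm_pow]
    exact hM1.le.trans (pow_le_pow_right₀ hσ.le ((le_max_left _ _).trans hm))
  · have h1 : c ≤ ‖τ e⁻¹‖ ^ m :=
      hM2.le.trans (pow_le_pow_right₀ hτ.le ((le_max_right _ _).trans hm))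
    have h2 : ‖τ (e ^ m)‖ * ‖τ e⁻¹‖ ^ m = 1 := by
      rw [← norm_pow, ← map_pow, ← norm_mul, ← map_mul, ← mul_pow, mul_inv_cancel₀ he0,
        one_pow, map_one, norm_one]
    rw [← h2]
    exact mul_le_mul_of_nonneg_left h1 (norm_nonneg _)

/-- The roots of the equation are distinct. -/
theorem rts_injective {K : Type*} [Field K] {p r : ℕ} {ζ e : K} (hζ : IsPrimitiveRoot ζ (p + 1))
    (σ : K →+* ℂ) (he : 1 < ‖σ e‖) (k : Fin (1 + 1)) : Function.Injective (rts p r ζ e k) := by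
  refine Fin.cases ?_ (fun l => ?_) k
  · intro i j hij
    exact Fin.ext (hζ.pow_inj i.isLt j.isLt hij)
  · intro i j hij
    have h1 : e ^ (i : ℕ) = e ^ (j : ℕ) := hij
    have h2 := congrArg (fun x => ‖σ x‖) h1
    simp only [map_pow, norm_pow] at h2
    exact Fin.ext (pow_right_injective₀ (by linarith) he.ne' h2)

theorem fX_ne_zero {K : Type*} [Field K] {p r : ℕ} {ζ e : K} (hζ : IsPrimitiveRoot ζ (p + 1))
    (σ : K →+* ℂ) (he : 1 < ‖σ e‖) : fX p r ζ e ≠ 0 := by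
  intro h
  have he0 : e ≠ 0 := by
    rintro rfl
    rw [map_zero, norm_zero] at he
    linarith
  have hE : ∏ i : Fin (r + 1), (1 + (σ e ^ (i : ℕ))⁻¹) ≠ 0 := by
    refine Finset.prod_ne_zero_iff.2 fun i _ h1 => ?_
    have h2 : (σ e ^ (i : ℕ))⁻¹ = -1 := by linear_combination h1
    have h3 := congrArg norm h2
    rw [norm_inv, norm_pow, norm_neg, norm_one, inv_eq_one] at h3
    have h4 : (i : ℕ) = 0 := by
      by_contra h5
      exact absurd h3 (one_lt_pow₀ he h5).ne'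
    rw [h4, pow_zero, inv_one] at h2
    norm_num at h2
  obtain ⟨y, hy⟩ := IsAlgClosed.exists_pow_nat_eq
    (1 - (∏ i : Fin (r + 1), (1 + (σ e ^ (i : ℕ))⁻¹))⁻¹) (Nat.succ_pos p)
  have hmem : (MvPolynomial.X 1 : MvPolynomial (Fin (1 + 1)) K) ∈
      Ideal.span {eqn (lm r e) (rts p r ζ e)} := Ideal.Quotient.eq_zero_iff_mem.1 h
  obtain ⟨g, hg⟩ := Ideal.mem_span_singleton.1 hmem
  have h1 := congrArg (MvPolynomial.eval₂ σ ![y, -1]) hg
  rw [MvPolynomial.eval₂_mul, MvPolynomial.eval₂_X, eqn_eq hζ he0, MvPolynomial.eval₂_sub,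
    MvPolynomial.eval₂_mul, MvPolynomial.eval₂_sub, MvPolynomial.eval₂_pow, MvPolynomial.eval₂_X,
    MvPolynomial.eval₂_one, MvPolynomial.eval₂_prod] at h1
  have h2 : ∏ i : Fin (r + 1), MvPolynomial.eval₂ σ ![y, -1]
      (1 - MvPolynomial.C (e ^ (i : ℕ))⁻¹ * MvPolynomial.X 1) =
      ∏ i : Fin (r + 1), (1 + (σ e ^ (i : ℕ))⁻¹) := by
    refine Finset.prod_congr rfl fun i _ => ?_
    rw [MvPolynomial.eval₂_sub, MvPolynomial.eval₂_mul, MvPolynomial.eval₂_C,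
      MvPolynomial.eval₂_X, MvPolynomial.eval₂_one, map_inv₀, map_pow]
    simp
  rw [h2] at h1
  have h3 : (![y, -1] : Fin (1 + 1) → ℂ) 0 = y := rfl
  have h4 : (![y, -1] : Fin (1 + 1) → ℂ) 1 = -1 := rfl
  rw [h3, h4, hy, sub_sub_cancel, inv_mul_cancel₀ hE, sub_self, zero_mul] at h1
  norm_num at h1

end Pool.Agent.TH265.U
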