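import Pool.Agent.TH265.U.Num
set_option autoImplicit false

/-!
The main terms for the roots `u^i`.
-/

namespace Pool.Agent.TH265.U

open Pool.Agent.TH826.MK
open MeasureTheory Set

variable {r t : ℕ} {u : ℂ}

/-- the radius `|u|^(t + 1/2)` -/
noncomputable def Rd (u : ℂ) (t : ℕ) : ℝ := Real.exp ((t + 1 / 2) * Real.log ‖u‖)

theorem Rd_pos (u : ℂ) (t : ℕ) : 0 < Rd u t := Real.exp_pos _

theorem norm_pow_eq (hu : u ≠ 0) (i : ℕ) : ‖u ^ i‖ = Real.exp (i * Real.log ‖u‖) := by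
  rw [norm_pow, mul_comm, Real.exp_mul, Real.exp_log (norm_pos_iff.2 hu), Real.rpow_natCast]

theorem log_norm_pow (i : ℕ) : Real.log ‖u ^ i‖ = i * Real.log ‖u‖ := by
  rw [norm_pow, Real.log_pow]

theorem half_le_abs (i t : ℕ) : 1 / 2 ≤ |(i : ℝ) - (t + 1 / 2)| := by
  rcases le_or_gt i t with h | h
  · have : (i : ℝ) ≤ t := by exact_mod_cast h
    rw [abs_of_nonpos (by linarith)]
    linarith
  · have : (t : ℝ) + 1 ≤ i := by exact_mod_cast h
    rw [abs_of_nonneg (by linarith)]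
    linarith

theorem fr_zero (u : ℂ) (t : ℕ) : Fr (Rd u t) 0 := by
  left
  rw [norm_zero, mul_zero]
  exact (Rd_pos u t).le

theorem fr_pow (hu : u ≠ 0) (hL : 2 * Real.log 2 ≤ |Real.log ‖u‖|) (i t : ℕ) :
    Fr (Rd u t) (u ^ i) := by
  set ℓ := Real.log ‖u‖ with hℓ
  have h1 : Real.log 2 ≤ |((i : ℝ) - (t + 1 / 2)) * ℓ| := by
    rw [abs_mul]
    have := half_le_abs i t
    have h0 : 0 ≤ |ℓ| := abs_nonneg _
    nlinarith
  have h2 : ‖u ^ i‖ = Rd u t * Real.exp (((i : ℝ) - (t + 1 / 2)) * ℓ) := by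
    rw [norm_pow_eq hu, Rd, ← Real.exp_add]
    congr 1
    ring
  have hR := Rd_pos u t
  have e2 : Real.exp (Real.log 2) = 2 := Real.exp_log two_pos
  rcases le_abs.1 h1 with h | h
  · right
    have : 2 ≤ Real.exp (((i : ℝ) - (t + 1 / 2)) * ℓ) := by
      have h5 := Real.exp_le_exp.2 h
      rwa [e2] at h5
    rw [h2]
    nlinarith
  · left
    have : Real.exp (((i : ℝ) - (t + 1 / 2)) * ℓ) ≤ 1 / 2 := by
      have h3 : ((i : ℝ) - (t + 1 / 2)) * ℓ ≤ -Real.log 2 := by linarith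
      refine (Real.exp_le_exp.2 h3).trans (le_of_eq ?_)
      rw [Real.exp_neg, e2]
      norm_num
    rw [h2]
    nlinarith

theorem wd_zero (u : ℂ) (t : ℕ) : wd (Rd u t) 0 = 1 := by
  unfold wd
  rw [norm_zero, if_pos (Rd_pos u t)]

theorem wd_pow_of_pos (hu : u ≠ 0) (hℓ : 0 < Real.log ‖u‖) (i t : ℕ) :
    wd (Rd u t) (u ^ i) = if i ≤ t then 1 else 0 := by
  unfold wd
  rw [norm_pow_eq hu, Rd]
  congr 1
  rw [Real.exp_lt_exp, mul_lt_mul_iff_left₀ hℓ, eq_iff_iff]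
  constructor
  · intro h
    by_contra hcon
    have : (t : ℝ) + 1 ≤ i := by exact_mod_cast Nat.lt_of_not_le hcon
    linarith
  · intro h
    have : (i : ℝ) ≤ t := by exact_mod_cast h
    linarith

theorem wd_pow_of_neg (hu : u ≠ 0) (hℓ : Real.log ‖u‖ < 0) (i t : ℕ) :
    wd (Rd u t) (u ^ i) = if t < i then 1 else 0 := by
  unfold wd
  rw [norm_pow_eq hu, Rd]
  congr 1
  rw [Real.exp_lt_exp, mul_lt_mul_right_of_neg hℓ, eq_iff_iff]
  constructor
  · intro h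
    by_contra hcon
    have : (i : ℝ) ≤ t := by exact_mod_cast Nat.le_of_not_lt hcon
    linarith
  · intro h
    have : (t : ℝ) + 1 ≤ i := by exact_mod_cast h
    linarith

theorem wd_mem (R : ℝ) (c : ℂ) : 0 ≤ wd R c ∧ wd R c ≤ 1 := by
  unfold wd
  split_ifs <;> norm_num

theorem abs_wd_sub (R : ℝ) (c c' : ℂ) : |wd R c - wd R c'| ≤ 1 := by
  have h1 := wd_mem R c
  have h2 := wd_mem R c'
  rw [abs_le]
  constructor <;> linarith [h1.1, h1.2, h2.1, h2.2]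

/-- the main term without the errors -/
noncomputable def Mt (u : ℂ) (r t c : ℕ) : ℝ :=
  ∑ i : Fin (r + 1), max 0 (((c : ℝ) - (i : ℕ)) * Real.log ‖u‖) *
    (wd (Rd u t) (u ^ (i : ℕ)) - wd (Rd u t) (u ^ c))

theorem abs_log_sub_le {a b : ℂ} (ha : a ≠ 0) (h : 2 * ‖b‖ ≤ ‖a‖) :
    |Real.log ‖a - b‖ - Real.log ‖a‖| ≤ Real.log 2 := by
  have h0 : 0 < ‖a‖ := norm_pos_iff.2 ha
  have h1 : ‖a‖ / 2 ≤ ‖a - b‖ := by linarith [norm_sub_norm_le a b]
  have h2 : ‖a - b‖ ≤ 2 * ‖a‖ := by linarith [norm_sub_le a b]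
  have h3 : 0 < ‖a - b‖ := by linarith
  have h4 := Real.log_le_log (by positivity) h1
  have h5 := Real.log_le_log h3 h2
  rw [Real.log_div h0.ne' two_ne_zero] at h4
  rw [Real.log_mul two_ne_zero h0.ne'] at h5
  rw [abs_le]
  constructor <;> linarith

theorem abs_log_pow_sub (hu : u ≠ 0) (hL : 2 * Real.log 2 ≤ |Real.log ‖u‖|) {i c : ℕ}
    (hic : i ≠ c) : |Real.log ‖u ^ i - u ^ c‖ -
      (i * Real.log ‖u‖ + max 0 (((c : ℝ) - i) * Real.log ‖u‖))| ≤ Real.log 2 := by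
  set ℓ := Real.log ‖u‖ with hℓ
  have hlog2 : 0 < Real.log 2 := Real.log_pos (by norm_num)
  have e2 : Real.exp (Real.log 2) = 2 := Real.exp_log two_pos
  have key : ∀ a b : ℕ, a ≠ b → 0 ≤ ((a : ℝ) - b) * ℓ → 2 * ‖u ^ b‖ ≤ ‖u ^ a‖ := by
    intro a b hab h
    have h1 : 1 ≤ |(a : ℝ) - b| := by
      rcases lt_or_gt_of_ne hab with h2 | h2
      · have : (a : ℝ) + 1 ≤ b := by exact_mod_cast h2
        rw [abs_of_nonpos (by linarith)]
        linarith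
      · have : (b : ℝ) + 1 ≤ a := by exact_mod_cast h2
        rw [abs_of_nonneg (by linarith)]
        linarith
    have h3 : Real.log 2 ≤ ((a : ℝ) - b) * ℓ := by
      rw [← abs_of_nonneg h, abs_mul]
      have h0 : 0 ≤ |ℓ| := abs_nonneg _
      nlinarith
    rw [norm_pow_eq hu, norm_pow_eq hu]
    have h4 : Real.exp (a * ℓ) = Real.exp (b * ℓ) * Real.exp (((a : ℝ) - b) * ℓ) := by
      rw [← Real.exp_add]
      congr 1
      ring
    rw [h4]
    have h5 : 2 ≤ Real.exp (((a : ℝ) - b) * ℓ) := by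
      rw [← e2]
      exact Real.exp_le_exp.2 h3
    have := Real.exp_pos (b * ℓ)
    nlinarith
  rcases le_total 0 (((c : ℝ) - i) * ℓ) with h | h
  · rw [max_eq_right h]
    have h1 := abs_log_sub_le (pow_ne_zero c hu) (key c i hic.symm h)
    rw [norm_sub_rev, log_norm_pow] at h1
    have e : (i : ℝ) * ℓ + ((c : ℝ) - i) * ℓ = c * ℓ := by ring
    rw [e]
    exact h1
  · rw [max_eq_left h, add_zero]
    have h1 := abs_log_sub_le (pow_ne_zero i hu) (key i c hic (by linarith))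
    rw [log_norm_pow] at h1
    exact h1

theorem log_norm_lm (hu : u ≠ 0) : Real.log ‖lm r u‖ =
    -∑ i : Fin (r + 1), ((i : ℕ) : ℝ) * Real.log ‖u‖ := by
  unfold lm
  rw [norm_neg, norm_inv, Real.log_inv, norm_prod, Real.log_prod]
  · congr 1
    refine Finset.sum_congr rfl fun i _ => ?_
    rw [norm_neg, log_norm_pow]
  · intro i _
    rw [norm_neg]
    exact norm_ne_zero_iff.2 (pow_ne_zero _ hu)

theorem abs_Mv_sub_Mt (hu : u ≠ 0) (hL : 2 * Real.log 2 ≤ |Real.log ‖u‖|) (c t : ℕ) :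
    |Mv (fun i : Fin (r + 1) => u ^ (i : ℕ)) (lm r u) (Rd u t) (u ^ c) 0 - Mt u r t c| ≤
      (r + 1) * Real.log 2 := by
  set ℓ := Real.log ‖u‖ with hℓ
  have e : Mv (fun i : Fin (r + 1) => u ^ (i : ℕ)) (lm r u) (Rd u t) (u ^ c) 0 - Mt u r t c =
      ∑ i : Fin (r + 1), ((((i : ℕ) : ℝ) * ℓ + max 0 (((c : ℝ) - (i : ℕ)) * ℓ)) -
        Real.log ‖u ^ (i : ℕ) - u ^ c‖) *
        (wd (Rd u t) (u ^ c) - wd (Rd u t) (u ^ (i : ℕ))) := by
    unfold Mv Mt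
    rw [log_norm_lm hu, wd_zero, ← hℓ]
    simp only [sub_zero, log_norm_pow, ← hℓ]
    rw [neg_mul, neg_neg, Finset.sum_mul, ← Finset.sum_sub_distrib, ← Finset.sum_sub_distrib]
    refine Finset.sum_congr rfl fun i _ => ?_
    ring
  rw [e]
  refine (Finset.abs_sum_le_sum_abs _ _).trans ?_
  have h1 : ∀ i ∈ (Finset.univ : Finset (Fin (r + 1))),
      |((((i : ℕ) : ℝ) * ℓ + max 0 (((c : ℝ) - (i : ℕ)) * ℓ)) -
        Real.log ‖u ^ (i : ℕ) - u ^ c‖) *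
        (wd (Rd u t) (u ^ c) - wd (Rd u t) (u ^ (i : ℕ)))| ≤ Real.log 2 := by
    intro i _
    by_cases hic : (i : ℕ) = c
    · rw [hic, sub_self (wd _ _), mul_zero, abs_zero]
      exact (Real.log_pos (by norm_num)).le
    · rw [abs_mul]
      have h2 := abs_log_pow_sub hu hL hic
      rw [abs_sub_comm] at h2
      have h3 := abs_wd_sub (Rd u t) (u ^ c) (u ^ (i : ℕ))
      calc _ ≤ Real.log 2 * 1 := mul_le_mul h2 h3 (abs_nonneg _) (Real.log_pos (by norm_num)).le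
        _ = _ := mul_one _
  refine (Finset.sum_le_card_nsmul _ _ _ h1).trans ?_
  rw [Finset.card_univ, Fintype.card_fin, nsmul_eq_mul]
  push_cast
  exact le_refl _

/-- entries below the diagonal -/
theorem Mt_eq_zero (hu : u ≠ 0) (hℓ : 0 < Real.log ‖u‖) {c t : ℕ} (h : c ≤ t) :
    Mt u r t c = 0 := by
  unfold Mt
  refine Finset.sum_eq_zero fun i _ => ?_
  rw [wd_pow_of_pos hu hℓ, wd_pow_of_pos hu hℓ, if_pos h]
  by_cases hi : (i : ℕ) ≤ t
  · rw [if_pos hi, sub_self, mul_zero]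
  · have : (c : ℝ) ≤ (i : ℕ) := by exact_mod_cast (h.trans (Nat.le_of_lt (Nat.lt_of_not_le hi)))
    rw [max_eq_left, zero_mul]
    nlinarith

/-- the diagonal entries at the first place -/
theorem le_Mt_of_pos (hu : u ≠ 0) (hℓ : 0 < Real.log ‖u‖) (ht : t < r) :
    Real.log ‖u‖ ≤ Mt u r t (t + 1) := by
  unfold Mt
  have hnn : ∀ i ∈ (Finset.univ : Finset (Fin (r + 1))),
      0 ≤ max 0 ((((t + 1 : ℕ) : ℝ) - (i : ℕ)) * Real.log ‖u‖) *
      (wd (Rd u t) (u ^ (i : ℕ)) - wd (Rd u t) (u ^ (t + 1))) := by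
    intro i _
    rw [wd_pow_of_pos hu hℓ (t + 1), if_neg (by omega), sub_zero]
    exact mul_nonneg (le_max_left _ _) (wd_mem _ _).1
  refine le_trans ?_ (Finset.single_le_sum hnn
    (Finset.mem_univ (⟨t, by omega⟩ : Fin (r + 1))))
  rw [wd_pow_of_pos hu hℓ (t + 1), if_neg (by omega), wd_pow_of_pos hu hℓ, if_pos (le_refl _)]
  have : ((((t + 1 : ℕ) : ℝ) - (t : ℕ)) * Real.log ‖u‖) = Real.log ‖u‖ := by
    push_cast
    ring
  simp only [this, sub_zero, mul_one]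
  exact le_max_right _ _

/-- the diagonal entry at the second place -/
theorem le_Mt_of_neg (hu : u ≠ 0) (hℓ : Real.log ‖u‖ < 0) (hr : 1 ≤ r) :
    |Real.log ‖u‖| ≤ Mt u r (r - 1) 0 := by
  unfold Mt
  have hnn : ∀ i ∈ (Finset.univ : Finset (Fin (r + 1))),
      0 ≤ max 0 ((((0 : ℕ) : ℝ) - (i : ℕ)) * Real.log ‖u‖) *
      (wd (Rd u (r - 1)) (u ^ (i : ℕ)) - wd (Rd u (r - 1)) (u ^ 0)) := by
    intro i _
    rw [wd_pow_of_neg hu hℓ 0, if_neg (by omega), sub_zero]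
    exact mul_nonneg (le_max_left _ _) (wd_mem _ _).1
  refine le_trans ?_ (Finset.single_le_sum hnn (Finset.mem_univ (Fin.last r)))
  rw [wd_pow_of_neg hu hℓ 0, if_neg (by omega), wd_pow_of_neg hu hℓ, Fin.val_last,
    if_pos (by omega)]
  have h1 : (1 : ℝ) ≤ r := by exact_mod_cast hr
  rw [abs_of_neg hℓ, sub_zero, mul_one]
  refine le_trans ?_ (le_max_right _ _)
  push_cast
  nlinarith

theorem abs_Mt_le {c : ℕ} (hc : c ≤ r) : |Mt u r t c| ≤ (r + 1) * (r * |Real.log ‖u‖|) := by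
  unfold Mt
  refine (Finset.abs_sum_le_sum_abs _ _).trans ?_
  have h1 : ∀ i ∈ (Finset.univ : Finset (Fin (r + 1))),
      |max 0 (((c : ℝ) - (i : ℕ)) * Real.log ‖u‖) *
      (wd (Rd u t) (u ^ (i : ℕ)) - wd (Rd u t) (u ^ c))| ≤ r * |Real.log ‖u‖| := by
    intro i _
    rw [abs_mul, abs_of_nonneg (le_max_left _ _)]
    have h2 : max 0 (((c : ℝ) - (i : ℕ)) * Real.log ‖u‖) ≤ r * |Real.log ‖u‖| := by
      refine max_le (by positivity) ?_
      refine (le_abs_self _).trans ?_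
      rw [abs_mul]
      refine mul_le_mul_of_nonneg_right ?_ (abs_nonneg _)
      have h3 : (c : ℝ) ≤ r := by exact_mod_cast hc
      have h4 : ((i : ℕ) : ℝ) ≤ r := by exact_mod_cast Nat.lt_succ_iff.1 i.isLt
      have h5 : (0 : ℝ) ≤ c := Nat.cast_nonneg _
      have h6 : (0 : ℝ) ≤ (i : ℕ) := Nat.cast_nonneg _
      rw [abs_le]
      constructor <;> linarith
    calc _ ≤ (r * |Real.log ‖u‖|) * 1 := mul_le_mul h2 (abs_wd_sub _ _ _) (abs_nonneg _)
          (by positivity)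
      _ = _ := mul_one _
  refine (Finset.sum_le_card_nsmul _ _ _ h1).trans ?_
  rw [Finset.card_univ, Fintype.card_fin, nsmul_eq_mul]
  push_cast
  exact le_refl _

/-- the size of the argument of the branch -/
theorem norm_w_le (hu : u ≠ 0) (hL : 2 * Real.log 2 ≤ |Real.log ‖u‖|) (ht : t < r)
    (θ : Fin 1 → ℝ) : ‖(lm r u * FF (fun i : Fin (r + 1) => u ^ (i : ℕ)) (Rd u t) θ)⁻¹‖ ≤
      2 ^ (r + 1) * Real.exp (-(|Real.log ‖u‖| / 2)) := by
  set ℓ := Real.log ‖u‖ with hℓ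
  have hlog2 : 0 < Real.log 2 := Real.log_pos (by norm_num)
  have hR := Rd_pos u t
  have hpow : ∀ i : ℕ, 0 < ‖u ^ i‖ := fun i => norm_pos_iff.2 (pow_ne_zero i hu)
  have e1 : ‖lm r u * FF (fun i : Fin (r + 1) => u ^ (i : ℕ)) (Rd u t) θ‖ =
      ∏ i : Fin (r + 1), ‖circ (Rd u t) (θ 0) - u ^ (i : ℕ)‖ / ‖u ^ (i : ℕ)‖ := by
    unfold lm FF
    rw [norm_mul, norm_neg, norm_inv, norm_prod, norm_prod, Finset.prod_div_distrib]
    simp only [norm_neg]
    rw [div_eq_inv_mul]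
  have hhalf : ∀ i : Fin (r + 1), 1 / 2 ≤ ‖circ (Rd u t) (θ 0) - u ^ (i : ℕ)‖ /
      ‖u ^ (i : ℕ)‖ := by
    intro i
    have h1 := (fr_pow hu hL i t).half_le' hR (θ 0)
    rw [le_div_iff₀ (hpow i)]
    linarith
  obtain ⟨i0, hi0⟩ : ∃ i0 : Fin (r + 1), Real.exp (|ℓ| / 2) / 2 ≤
      ‖circ (Rd u t) (θ 0) - u ^ (i0 : ℕ)‖ / ‖u ^ (i0 : ℕ)‖ := by
    have key : ∀ i : ℕ, |ℓ| / 2 + i * ℓ ≤ (t + 1 / 2) * ℓ → Real.exp (|ℓ| / 2) / 2 ≤
        ‖circ (Rd u t) (θ 0) - u ^ i‖ / ‖u ^ i‖ := by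
      intro i hi
      have h1 := (fr_pow hu hL i t).half_le hR (θ 0)
      rw [le_div_iff₀ (hpow i)]
      refine le_trans ?_ h1
      have h2 := Real.exp_le_exp.2 hi
      rw [Real.exp_add] at h2
      rw [norm_pow_eq hu]
      unfold Rd
      rw [← hℓ]
      linarith
    have ht' : (t : ℝ) + 1 ≤ r := by exact_mod_cast ht
    have ht0 : (0 : ℝ) ≤ t := Nat.cast_nonneg _
    rcases le_or_gt 0 ℓ with h | h
    · refine ⟨0, key 0 ?_⟩
      rw [abs_of_nonneg h]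
      push_cast
      nlinarith
    · refine ⟨Fin.last r, ?_⟩
      rw [Fin.val_last]
      refine key r ?_
      rw [abs_of_neg h]
      nlinarith
  have h2 : (1 / 2 : ℝ) ^ (r + 1) * Real.exp (|ℓ| / 2) ≤
      ‖lm r u * FF (fun i : Fin (r + 1) => u ^ (i : ℕ)) (Rd u t) θ‖ := by
    rw [e1, ← Finset.mul_prod_erase _ _ (Finset.mem_univ i0)]
    have h3 : (1 / 2 : ℝ) ^ r ≤ ∏ i ∈ Finset.univ.erase i0,
        ‖circ (Rd u t) (θ 0) - u ^ (i : ℕ)‖ / ‖u ^ (i : ℕ)‖ := by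
      have h4 : (1 / 2 : ℝ) ^ r = ∏ _i ∈ Finset.univ.erase i0, (1 / 2 : ℝ) := by
        rw [Finset.prod_const, Finset.card_erase_of_mem (Finset.mem_univ _), Finset.card_univ,
          Fintype.card_fin, Nat.add_sub_cancel]
      rw [h4]
      exact Finset.prod_le_prod (fun _ _ => by norm_num) fun i _ => hhalf i
    calc (1 / 2 : ℝ) ^ (r + 1) * Real.exp (|ℓ| / 2) =
          (Real.exp (|ℓ| / 2) / 2) * (1 / 2) ^ r := by rw [pow_succ]; ring
      _ ≤ _ := mul_le_mul hi0 h3 (by positivity) (by positivity)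
  rw [norm_inv]
  have h5 : 0 < (1 / 2 : ℝ) ^ (r + 1) * Real.exp (|ℓ| / 2) := by positivity
  refine (inv_anti₀ h5 h2).trans (le_of_eq ?_)
  rw [mul_inv, Real.exp_neg, one_div, inv_pow, inv_inv]

end Pool.Agent.TH265.U
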