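import Pool.Agent.TH826.MH.Smooth
import Pool.Agent.TH265.U.Alg
set_option autoImplicit false

/-!
The curves `(1 - y^(p+1)) ∏_{i ≤ r} (1 - e^(-i) x) = 1` are smooth if `|σ e|` is large.
-/

namespace Pool.Agent.TH265.U

open Polynomial

open Pool.Agent.TH826.MH (eqn qq pderiv_eqn eval_aeval)

section Crit

/-- The polynomial `∏_{i ≤ r} (1 - x / E^i)` has no critical point with value one. -/
theorem no_crit (r : ℕ) (hr : 1 ≤ r) {E x : ℂ}
    (hE : ((2 * (r : ℝ) + 2) ^ r + 2) ^ 2 ≤ ‖E‖)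
    (hx : ∏ i : Fin (r + 1), (x - E ^ (i : ℕ)) = ∏ i : Fin (r + 1), -(E ^ (i : ℕ))) :
    ∑ i : Fin (r + 1), (x - E ^ (i : ℕ))⁻¹ ≠ 0 := by
  classical
  intro hsum
  have hr1 : (1 : ℝ) ≤ r := by exact_mod_cast hr
  set S : ℝ := Real.sqrt ‖E‖ with hS
  have hSS : S * S = ‖E‖ := Real.mul_self_sqrt (norm_nonneg _)
  set D : ℝ := (2 * (r : ℝ) + 2) ^ r with hD
  have hDr : 2 * (r : ℝ) + 2 ≤ D := by
    rw [hD]
    calc 2 * (r : ℝ) + 2 = (2 * (r : ℝ) + 2) ^ 1 := (pow_one _).symm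
      _ ≤ _ := pow_le_pow_right₀ (by linarith) hr
  have hSD : D + 2 ≤ S := by
    rw [hS]
    refine Real.le_sqrt_of_sq_le ?_
    exact hE
  have hS4 : 4 ≤ S := by linarith
  have hE16 : 16 ≤ ‖E‖ := by nlinarith
  have hE0 : E ≠ 0 := by
    rw [← norm_pos_iff]
    linarith
  have hEi : ∀ i : ℕ, 0 < ‖E ^ i‖ := fun i => norm_pos_iff.2 (pow_ne_zero _ hE0)
  have hne : ∀ i : Fin (r + 1), x - E ^ (i : ℕ) ≠ 0 := by
    have h1 : ∏ i : Fin (r + 1), (x - E ^ (i : ℕ)) ≠ 0 := by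
      rw [hx]
      exact Finset.prod_ne_zero_iff.2 fun i _ => neg_ne_zero.2 (pow_ne_zero _ hE0)
    exact fun i => (Finset.prod_ne_zero_iff.1 h1) i (Finset.mem_univ i)
  have hEpow : ∀ i : ℕ, 1 ≤ i → ‖E‖ ≤ ‖E ^ i‖ := by
    intro i hi
    rw [norm_pow]
    calc ‖E‖ = ‖E‖ ^ 1 := (pow_one _).symm
      _ ≤ _ := pow_le_pow_right₀ (by linarith) hi
  rcases lt_or_ge ‖x‖ S with hA | hA
  · -- `x` is small: the first term dominates
    rw [Fin.sum_univ_succ] at hsum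
    have h1 : (x - E ^ ((0 : Fin (r + 1)) : ℕ))⁻¹ = -∑ i : Fin r, (x - E ^ ((i.succ : Fin (r + 1)) : ℕ))⁻¹ :=
      eq_neg_of_add_eq_zero_left hsum
    have h2 : ∀ i : Fin r, ‖(x - E ^ ((i.succ : Fin (r + 1)) : ℕ))⁻¹‖ ≤ 2 / ‖E‖ := by
      intro i
      have h3 : ‖E ^ ((i.succ : Fin (r + 1)) : ℕ)‖ - ‖x‖ ≤ ‖x - E ^ ((i.succ : Fin (r + 1)) : ℕ)‖ := by
        rw [norm_sub_rev]
        exact norm_sub_norm_le _ _
      have h4 := hEpow ((i.succ : Fin (r + 1)) : ℕ) (by rw [Fin.val_succ]; omega)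
      rw [norm_inv, inv_le_comm₀ (norm_pos_iff.2 (hne i.succ)) (by positivity), inv_div]
      nlinarith
    have h3 : ‖(x - E ^ ((0 : Fin (r + 1)) : ℕ))⁻¹‖ ≤ r * (2 / ‖E‖) := by
      rw [h1, norm_neg]
      refine (norm_sum_le _ _).trans ((Finset.sum_le_sum fun i _ => h2 i).trans ?_)
      simp
    have h4 : ‖x - E ^ ((0 : Fin (r + 1)) : ℕ)‖ ≤ S + 1 := by
      refine (norm_sub_le _ _).trans ?_
      simp only [Fin.val_zero, pow_zero, norm_one]
      linarith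
    rw [norm_inv] at h3
    have h5 : (S + 1)⁻¹ ≤ ‖x - E ^ ((0 : Fin (r + 1)) : ℕ)‖⁻¹ :=
      inv_anti₀ (norm_pos_iff.2 (hne 0)) h4
    have h6 : (S + 1)⁻¹ ≤ r * (2 / ‖E‖) := h5.trans h3
    rw [inv_le_iff_one_le_mul₀ (by linarith)] at h6
    have h7 : r * (2 / ‖E‖) * (S + 1) = (2 * r * (S + 1)) / ‖E‖ := by ring
    rw [h7, le_div_iff₀ (by linarith), one_mul, ← hSS] at h6
    nlinarith
  · -- some `x / E^i` is close to one
    set δ : ℝ := (2 * (r : ℝ) + 2)⁻¹ with hδ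
    have hδ0 : 0 < δ := by positivity
    have hδ1 : δ * (2 * (r : ℝ) + 2) = 1 := inv_mul_cancel₀ (by positivity)
    have hδ4 : δ ≤ 1 / 4 := by nlinarith
    obtain ⟨i, hi1, hi⟩ : ∃ i : Fin (r + 1), 1 ≤ (i : ℕ) ∧
        ‖x - E ^ (i : ℕ)‖ < δ * ‖E ^ (i : ℕ)‖ := by
      by_contra hcon
      push Not at hcon
      have h1 := congrArg norm hx
      rw [norm_prod, norm_prod, Fin.prod_univ_succ, Fin.prod_univ_succ] at h1
      have h2 : ‖x - E ^ ((0 : Fin (r + 1)) : ℕ)‖ ≥ D + 1 := by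
        have h3 : ‖x‖ - ‖E ^ ((0 : Fin (r + 1)) : ℕ)‖ ≤ ‖x - E ^ ((0 : Fin (r + 1)) : ℕ)‖ :=
          norm_sub_norm_le _ _
        simp only [Fin.val_zero, pow_zero, norm_one] at h3 ⊢
        linarith
      have h3 : ∏ i : Fin r, (δ * ‖E ^ ((i.succ : Fin (r + 1)) : ℕ)‖) ≤
          ∏ i : Fin r, ‖x - E ^ ((i.succ : Fin (r + 1)) : ℕ)‖ := by
        refine Finset.prod_le_prod (fun i _ => by positivity) fun i _ => ?_
        exact hcon i.succ (by rw [Fin.val_succ]; omega)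
      rw [Finset.prod_mul_distrib, Finset.prod_const, Finset.card_univ, Fintype.card_fin] at h3
      set Q : ℝ := ∏ i : Fin r, ‖E ^ ((i.succ : Fin (r + 1)) : ℕ)‖ with hQ
      have hQ0 : 0 < Q := Finset.prod_pos fun i _ => hEi _
      have h4 : ‖-(E ^ ((0 : Fin (r + 1)) : ℕ))‖ *
          ∏ i : Fin r, ‖-(E ^ ((i.succ : Fin (r + 1)) : ℕ))‖ = Q := by
        simp only [norm_neg, Fin.val_zero, pow_zero, norm_one, one_mul]
        rfl
      rw [h4] at h1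
      have h5 : δ ^ r * D = 1 := by
        rw [hδ, hD, ← mul_pow, inv_mul_cancel₀ (by positivity), one_pow]
      have h6 := mul_le_mul h2 h3 (by positivity) (norm_nonneg _)
      rw [h1] at h6
      have h7 : (D + 1) * (δ ^ r * Q) = Q + δ ^ r * Q := by
        linear_combination Q * h5
      have h8 : 0 < δ ^ r * Q := by positivity
      linarith
    -- the norm of `x`
    have hx1 : (1 - δ) * ‖E ^ (i : ℕ)‖ ≤ ‖x‖ := by
      have h1 : ‖E ^ (i : ℕ)‖ - ‖x‖ ≤ ‖x - E ^ (i : ℕ)‖ := by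
        rw [norm_sub_rev]
        exact norm_sub_norm_le _ _
      linarith
    have hx2 : ‖x‖ ≤ (1 + δ) * ‖E ^ (i : ℕ)‖ := by
      have h1 : ‖x‖ - ‖E ^ (i : ℕ)‖ ≤ ‖x - E ^ (i : ℕ)‖ := norm_sub_norm_le _ _
      linarith
    have hj : ∀ j ∈ Finset.univ.erase i, ‖(x - E ^ (j : ℕ))⁻¹‖ * ‖x‖ ≤ 2 := by
      intro j hj
      have hji : (j : ℕ) ≠ i := fun h => (Finset.ne_of_mem_erase hj) (Fin.ext h)
      rw [norm_inv, inv_mul_le_iff₀ (norm_pos_iff.2 (hne j))]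
      rcases lt_or_gt_of_ne hji with h | h
      · have h1 : ‖E‖ * ‖E ^ (j : ℕ)‖ ≤ ‖E ^ (i : ℕ)‖ := by
          rw [← norm_mul, ← pow_succ', norm_pow, norm_pow]
          exact pow_le_pow_right₀ (by linarith) h
        have h2 : ‖x‖ - ‖E ^ (j : ℕ)‖ ≤ ‖x - E ^ (j : ℕ)‖ := norm_sub_norm_le _ _
        have h3 := hEi j
        nlinarith
      · have h1 : ‖E‖ * ‖E ^ (i : ℕ)‖ ≤ ‖E ^ (j : ℕ)‖ := by
          rw [← norm_mul, ← pow_succ', norm_pow, norm_pow]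
          exact pow_le_pow_right₀ (by linarith) h
        have h2 : ‖E ^ (j : ℕ)‖ - ‖x‖ ≤ ‖x - E ^ (j : ℕ)‖ := by
          rw [norm_sub_rev]
          exact norm_sub_norm_le _ _
        have h3 := hEi i
        nlinarith
    have h1 : (x - E ^ (i : ℕ))⁻¹ = -∑ j ∈ Finset.univ.erase i, (x - E ^ (j : ℕ))⁻¹ := by
      rw [eq_neg_iff_add_eq_zero, Finset.add_sum_erase _ (fun j : Fin (r + 1) =>
        (x - E ^ (j : ℕ))⁻¹) (Finset.mem_univ i)]
      exact hsum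
    have h2 : ‖(x - E ^ (i : ℕ))⁻¹‖ * ‖x‖ ≤ r * 2 := by
      rw [h1, norm_neg]
      refine (mul_le_mul_of_nonneg_right (norm_sum_le _ _) (norm_nonneg _)).trans ?_
      rw [Finset.sum_mul]
      refine (Finset.sum_le_sum hj).trans ?_
      rw [Finset.sum_const, Finset.card_erase_of_mem (Finset.mem_univ i), Finset.card_univ,
        Fintype.card_fin, nsmul_eq_mul, Nat.add_sub_cancel]
    rw [norm_inv, inv_mul_le_iff₀ (norm_pos_iff.2 (hne i))] at h2
    have h3 := hEi i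
    have h4 : ‖x - E ^ (i : ℕ)‖ * (r * 2) ≤ δ * ‖E ^ (i : ℕ)‖ * (r * 2) :=
      mul_le_mul_of_nonneg_right hi.le (by positivity)
    have h5 : (1 - δ) * ‖E ^ (i : ℕ)‖ ≤ δ * ‖E ^ (i : ℕ)‖ * (r * 2) := hx1.trans (h2.trans h4)
    have h6 : (1 - δ) ≤ δ * (r * 2) := by
      refine le_of_mul_le_mul_right ?_ h3
      linarith
    nlinarith

end Crit

section

variable {K : Type*} [Field K]

theorem eval_qq (σ : K →+* ℂ) {m : ℕ} (a : Fin m → K) (x : ℂ) :
    (qq a).eval₂ σ x = ∏ i, (x - σ (a i)) := by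
  unfold qq
  rw [eval₂_finsetProd]
  refine Finset.prod_congr rfl fun i _ => ?_
  simp

theorem eval_derivative_qq (σ : K →+* ℂ) {m : ℕ} (a : Fin m → K) (x : ℂ)
    (hx : ∀ i, x - σ (a i) ≠ 0) : (derivative (qq a)).eval₂ σ x =
      (∑ i, (x - σ (a i))⁻¹) * ∏ i, (x - σ (a i)) := by
  classical
  have hev : ∀ s : Finset (Fin m), (∏ i ∈ s, (X - C (a i))).eval₂ σ x =
      ∏ i ∈ s, (x - σ (a i)) := by
    intro s
    rw [eval₂_finsetProd]
    refine Finset.prod_congr rfl fun i _ => ?_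
    simp
  unfold qq
  rw [derivative_prod_finset, eval₂_finsetSum, Finset.sum_mul]
  refine Finset.sum_congr rfl fun i _ => ?_
  rw [eval₂_mul, hev, ← Finset.mul_prod_erase Finset.univ _ (Finset.mem_univ i)]
  have := hx i
  rw [← mul_assoc, inv_mul_cancel₀ this, one_mul]
  simp

/-- Smoothness at the complex points over `σ`. -/
theorem smooth (p r : ℕ) (hr : 1 ≤ r) (σ : K →+* ℂ) (ζ e : K)
    (hζ : IsPrimitiveRoot ζ (p + 1)) (he : ((2 * (r : ℝ) + 2) ^ r + 2) ^ 2 ≤ ‖σ e‖)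
    (x : Fin (1 + 1) → ℂ) (hx : MvPolynomial.eval₂ σ x (eqn (lm r e) (rts p r ζ e)) = 0) :
    ∃ k, MvPolynomial.eval₂ σ x (MvPolynomial.pderiv k (eqn (lm r e) (rts p r ζ e))) ≠ 0 := by
  classical
  by_contra hcon
  push Not at hcon
  set E : ℂ := σ e with hEdef
  have hE0 : E ≠ 0 := by
    rw [← norm_pos_iff]
    have : (0 : ℝ) < ((2 * (r : ℝ) + 2) ^ r + 2) ^ 2 := by positivity
    linarith
  have he0 : e ≠ 0 := by
    rintro rfl
    rw [hEdef, map_zero] at hE0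
    exact hE0 rfl
  -- the equation
  set P : ℂ := ∏ i : Fin (r + 1), (x 1 - E ^ (i : ℕ)) with hP
  set Q : ℂ := ∏ i : Fin (r + 1), -(E ^ (i : ℕ)) with hQ
  have hQ0 : Q ≠ 0 := Finset.prod_ne_zero_iff.2 fun i _ => neg_ne_zero.2 (pow_ne_zero _ hE0)
  have hlm : σ (lm r e) = -Q⁻¹ := by
    unfold lm
    rw [map_neg, map_inv₀, map_prod, hQ]
    congr 2
    refine Finset.prod_congr rfl fun i _ => ?_
    rw [map_neg, map_pow]
  have hσζ : IsPrimitiveRoot (σ ζ) (p + 1) := hζ.map_of_injective σ.injective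
  have e0 : (qq (rts p r ζ e 0)).eval₂ σ (x 0) = x 0 ^ (p + 1) - 1 := by
    rw [eval_qq, ← prod_roots hσζ]
    refine Finset.prod_congr rfl fun i _ => ?_
    show x 0 - σ (ζ ^ (i : ℕ)) = _
    rw [map_pow]
  have e1 : (qq (rts p r ζ e 1)).eval₂ σ (x 1) = P := by
    rw [eval_qq, hP]
    refine Finset.prod_congr rfl fun i _ => ?_
    show x 1 - σ (e ^ (i : ℕ)) = _
    rw [map_pow]
  have he01 : (Finset.univ : Finset (Fin (1 + 1))).erase 0 = {1} := rfl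
  have he10 : (Finset.univ : Finset (Fin (1 + 1))).erase 1 = {0} := rfl
  have heq : -Q⁻¹ * ((x 0 ^ (p + 1) - 1) * P) = 1 := by
    rw [Pool.Agent.TH826.MH.eqn_eq _ _ 0, MvPolynomial.eval₂_sub, MvPolynomial.eval₂_mul,
      MvPolynomial.eval₂_mul, MvPolynomial.eval₂_C, MvPolynomial.eval₂_one, he01,
      Finset.prod_singleton, eval_aeval, eval_aeval, e0, e1, hlm] at hx
    linear_combination hx
  have hP0 : P ≠ 0 := by
    intro h
    rw [h] at heq
    simp at heq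
  -- the derivative with respect to `y`
  have hder0 : (derivative (qq (rts p r ζ e 0))).eval₂ σ (x 0) = ((p : ℂ) + 1) * x 0 ^ p := by
    have h1 : qq (rts p r ζ e 0) = X ^ (p + 1) - 1 := by
      rw [← prod_roots (hζ.map_of_injective (C_injective (R := K)))]
      unfold qq
      refine Finset.prod_congr rfl fun i _ => ?_
      show X - C (ζ ^ (i : ℕ)) = _
      rw [map_pow]
    rw [h1]
    simp
  have h0 := hcon 0
  rw [pderiv_eqn, MvPolynomial.eval₂_mul, MvPolynomial.eval₂_mul, MvPolynomial.eval₂_C, he01,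
    Finset.prod_singleton, eval_aeval, eval_aeval, hder0, e1, hlm] at h0
  have hx0 : x 0 = 0 := by
    have hp1 : ((p : ℂ) + 1) ≠ 0 := Nat.cast_add_one_ne_zero p
    have h1 : x 0 ^ p = 0 := by
      rcases mul_eq_zero.1 h0 with h | h
      · exact absurd h (neg_ne_zero.2 (inv_ne_zero hQ0))
      · rcases mul_eq_zero.1 h with h | h
        · exact (mul_eq_zero.1 h).resolve_left hp1
        · exact absurd h hP0
    exact eq_zero_of_pow_eq_zero h1
  rw [hx0, zero_pow (Nat.succ_ne_zero p), zero_sub] at heq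
  have hPQ : P = Q := by
    have h1 : Q⁻¹ * P = 1 := by linear_combination heq
    have h2 : Q * (Q⁻¹ * P) = Q * 1 := by rw [h1]
    rwa [← mul_assoc, mul_inv_cancel₀ hQ0, one_mul, mul_one] at h2
  have hne := no_crit r hr he hPQ
  have h1 := hcon 1
  have hu : ∀ i, x 1 - σ (rts p r ζ e 1 i) ≠ 0 := by
    intro i
    have h2 : x 1 - σ (rts p r ζ e 1 i) = x 1 - E ^ (i : ℕ) := by
      show x 1 - σ (e ^ (i : ℕ)) = _
      rw [map_pow]
    rw [h2]
    exact (Finset.prod_ne_zero_iff.1 hP0) i (Finset.mem_univ i)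
  rw [pderiv_eqn, MvPolynomial.eval₂_mul, MvPolynomial.eval₂_mul, MvPolynomial.eval₂_C, he10,
    Finset.prod_singleton, eval_aeval, eval_aeval, eval_derivative_qq σ _ _ hu, e0, hlm, hx0,
    zero_pow (Nat.succ_ne_zero p), zero_sub] at h1
  have h3 : ∏ i, (x 1 - σ (rts p r ζ e 1 i)) = P := by
    rw [← e1, eval_qq]
  have h4 : ∑ i, (x 1 - σ (rts p r ζ e 1 i))⁻¹ = ∑ i : Fin (r + 1), (x 1 - E ^ (i : ℕ))⁻¹ := by
    refine Finset.sum_congr rfl fun i _ => ?_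
    show (x 1 - σ (e ^ (i : ℕ)))⁻¹ = _
    rw [map_pow]
  rw [h3, h4] at h1
  rcases mul_eq_zero.1 h1 with h | h
  · exact absurd h (neg_ne_zero.2 (inv_ne_zero hQ0))
  · rcases mul_eq_zero.1 h with h | h
    · rcases mul_eq_zero.1 h with h | h
      · exact hne h
      · exact hP0 h
    · norm_num at h

end

end Pool.Agent.TH265.U
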