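import Pool.Agent.TH265.U.Fin
import Pool.Agent.TH265.U.Smo
import Pool.Agent.TH265.U.Fld
set_option autoImplicit false

/-!
The assertions of the theorem.
-/

namespace Pool.Agent.TH265.U

open Pool.Agent.TH826.MK (KQ symb Unramified Torus)

open Pool.Agent.TH826.MH (eqn)

universe u v

variable {K : Type u} [Field K] (p r : ℕ) (ζ e : K)

/-- The polynomial `(1 - y^(p+1)) ∏_{i ≤ r} (1 - e^(-i) x) - 1` (`y`, `x` are the variables number
`0`, `1`). -/
noncomputable def poly : MvPolynomial (Fin (1 + 1)) K :=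
  (1 - MvPolynomial.X 0 ^ (p + 1)) *
    ∏ i : Fin (r + 1), (1 - MvPolynomial.C (e ^ (i : ℕ))⁻¹ * MvPolynomial.X 1) - 1

/-- At each complex point over `σ` of the curve `f = 0` some derivative of `f` does not vanish. -/
def Smooth (f : MvPolynomial (Fin (1 + 1)) K) (σ : K →+* ℂ) : Prop :=
  ∀ x : Fin (1 + 1) → ℂ, f.eval₂ σ x = 0 → ∃ k, (MvPolynomial.pderiv k f).eval₂ σ x ≠ 0

/-- The symbols are unramified at all discrete valuations of the function field. -/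
def UnramifiedSymbols : Prop :=
  ∀ (L : Type v) [Field L] [Algebra (Crv p r ζ e) L] [IsFractionRing (Crv p r ζ e) L],
    ∃ f : Opn p r ζ e →+* L, (∀ b, f (toLoc (fX p r ζ e) b) = algebraMap (Crv p r ζ e) L b) ∧
      ∀ q, KQ.map (1 + 1) f (symb (sym p r ζ e q)) ∈ Unramified L (1 + 1)

/-- There are loops in the complex points of the curve, over `τ` if the first index is `0` and over
`σ` otherwise, such that the matrix of the regulators of the symbols has nonzero determinant. -/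
def IndependentRegulators (σ τ : K →+* ℂ) : Prop :=
  ∃ Γ : Fin (r + 1) × Fin p → Torus (Opn p r ζ e) 1,
    (∀ t θ x, (Γ t).e θ (cst0 p r ζ e x) = if t.1 = 0 then τ x else σ x) ∧
    (Matrix.of fun t q => (Γ t).reg (symb (sym p r ζ e q))).det ≠ 0

theorem main (hr : 1 ≤ r) :
    ∃ c : ℝ, 1 < c ∧
      (∀ (K : Type u) [Field K] [NumberField K] (σ τ : K →+* ℂ) (ζ e : K),
        IsPrimitiveRoot ζ (p + 1) → IsIntegral ℤ e → IsIntegral ℤ e⁻¹ →
        c ≤ ‖σ e‖ → ‖τ e‖ * c ≤ 1 →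
        eqn (lm r e) (rts p r ζ e) = poly p r e ∧ IsDomain (Crv p r ζ e) ∧
        Smooth (poly p r e) σ ∧ UnramifiedSymbols.{u, v} p r ζ e ∧
        IndependentRegulators p r ζ e σ τ) ∧
      ∀ (K : Type u) [Field K] [NumberField K] (e₀ : K), IsIntegral ℤ e₀ → IsIntegral ℤ e₀⁻¹ →
        e₀ ≠ 0 → (∀ n : ℕ, 0 < n → e₀ ^ n ≠ 1) →
        ∃ (σ τ : K →+* ℂ) (M : ℕ), ∀ m ≥ M, c ≤ ‖σ (e₀ ^ m)‖ ∧ ‖τ (e₀ ^ m)‖ * c ≤ 1 := by
  obtain ⟨c1, hc1, hdet⟩ := exists_det.{u} p r hr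
  set c2 : ℝ := ((2 * (r : ℝ) + 2) ^ r + 2) ^ 2 with hc2
  refine ⟨max c1 c2, lt_max_of_lt_left hc1, ?_, ?_⟩
  · intro K _ _ σ τ ζ e hζ he he' hσ hτ
    have hσ1 : c1 ≤ ‖σ e‖ := (le_max_left _ _).trans hσ
    have hσ2 : c2 ≤ ‖σ e‖ := (le_max_right _ _).trans hσ
    have hτ1 : ‖τ e‖ * c1 ≤ 1 :=
      (mul_le_mul_of_nonneg_left (le_max_left _ _) (norm_nonneg _)).trans hτ
    have he0 : e ≠ 0 := by
      rintro rfl
      rw [map_zero, norm_zero] at hσ1
      linarith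
    have hdom : IsDomain (Crv p r ζ e) :=
      Pool.Agent.TH826.MH.isDomain_CRing (m := 0) (lm r e) (rts p r ζ e) (lm_ne_zero r he0)
        (rts_injective hζ σ (hc1.trans_le hσ1))
    obtain ⟨Γ, hΓ, hd⟩ := hdet σ τ ζ e hζ hσ1 hτ1
    have heq : eqn (lm r e) (rts p r ζ e) = poly p r e := eqn_eq hζ he0
    refine ⟨heq, hdom, ?_, ?_, Γ, hΓ, hd⟩
    · intro x hx
      rw [← heq] at hx ⊢
      exact smooth p r hr σ ζ e hζ hσ2 x hx
    · intro L _ _ _
      have hinj : Function.Injective (algebraMap (Crv p r ζ e) L) := IsFractionRing.injective _ _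
      have hx1 : algebraMap (Crv p r ζ e) L (fX p r ζ e) ≠ 0 := by
        rw [Ne, map_eq_zero_iff _ hinj]
        exact fX_ne_zero hζ σ (hc1.trans_le hσ1)
      exact ⟨liftLoc (fX p r ζ e) (algebraMap (Crv p r ζ e) L) hx1,
        fun b => liftLoc_toLoc _ _ _ _, fun q => sym_mem_unramified _ hζ he he' he0 q⟩
  · intro K _ _ e₀ he he' he0 hne
    exact exists_pow he he' hne he0 _

end Pool.Agent.TH265.U
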