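import Pool.Agent.TH265.U.Alg
set_option autoImplicit false

/-!
The regulator integrals over the circles of radius `|u|^(t+1/2)`.
-/

namespace Pool.Agent.TH265.U

open Pool.Agent.TH826.MK
open Pool.Agent.TH826.MH (Nice good_w good_comp lw_w lw_comp pairing_w pairing_cons_div0 wt
  abs_wt_le exists_branch)
open MeasureTheory Set

section nice

theorem Nice.log_sub_le {δ C : ℝ} {g : ℂ → ℂ} (hg : Nice δ C g) {w : ℂ} (hw : ‖w‖ < δ) :
    |Real.log ‖g w‖ - Real.log ‖g 0‖| ≤ C * ‖w‖ := by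
  have hδ : 0 < δ := (norm_nonneg w).trans_lt hw
  have key := (convex_ball (0 : ℂ) δ).norm_image_sub_le_of_norm_hasFDerivWithin_le
    (f := fun z : ℂ => Real.log ‖g z‖)
    (f' := fun z : ℂ => Complex.reCLM.comp ((g z)⁻¹ • ((ContinuousLinearMap.toSpanSingleton ℂ
      (deriv g z)).restrictScalars ℝ))) (C := C) (x := 0) (y := w) ?_ ?_ (by simpa using hδ)
    (by simpa using hw)
  · simpa using key
  · intro z hz
    have hz' : ‖z‖ < δ := by simpa using hz
    obtain ⟨h1, h2, -, -⟩ := hg z hz'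
    have h3 : HasFDerivAt g ((ContinuousLinearMap.toSpanSingleton ℂ
      (deriv g z)).restrictScalars ℝ) z := (h1.differentiableAt.hasDerivAt.hasFDerivAt).restrictScalars ℝ
    exact (hasFDerivAt_logNorm h3 h2).hasFDerivWithinAt
  · intro z hz
    have hz' : ‖z‖ < δ := by simpa using hz
    obtain ⟨h1, h2, -, h4⟩ := hg z hz'
    refine le_trans ?_ h4
    refine ContinuousLinearMap.opNorm_le_bound _ (norm_nonneg _) fun x => ?_
    have e : (Complex.reCLM.comp ((g z)⁻¹ • ((ContinuousLinearMap.toSpanSingleton ℂ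
      (deriv g z)).restrictScalars ℝ))) x = ((g z)⁻¹ * (x * deriv g z)).re := rfl
    rw [e, Real.norm_eq_abs]
    refine (Complex.abs_re_le_norm _).trans (le_of_eq ?_)
    rw [norm_mul, norm_mul, norm_div, norm_inv]
    ring

end nice

section far

/-- The point `b` is well separated from the circle of radius `R`. -/
def Fr (R : ℝ) (b : ℂ) : Prop := 2 * ‖b‖ ≤ R ∨ 2 * R ≤ ‖b‖

variable {R M : ℝ} {b b' : ℂ}

theorem Fr.ne (h : Fr R b) (hR : 0 < R) : ‖b‖ ≠ R := by
  intro e
  rcases h with h1 | h1 <;> rw [e] at h1 <;> linarith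

theorem Fr.half_le (h : Fr R b) (hR : 0 < R) (s : ℝ) : R / 2 ≤ ‖circ R s - b‖ := by
  rcases h with h1 | h1
  · have := norm_sub_norm_le (circ R s) b
    rw [norm_circ hR.le] at this
    linarith
  · have := norm_sub_norm_le b (circ R s)
    rw [norm_circ hR.le, norm_sub_rev] at this
    linarith

theorem Fr.half_le' (h : Fr R b) (hR : 0 < R) (s : ℝ) : ‖b‖ / 2 ≤ ‖circ R s - b‖ := by
  rcases h with h1 | h1
  · have := norm_sub_norm_le (circ R s) b
    rw [norm_circ hR.le] at this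
    linarith
  · have := norm_sub_norm_le b (circ R s)
    rw [norm_circ hR.le, norm_sub_rev] at this
    linarith

theorem Fr.one (h : Fr R b) (hR : 0 < R) : One (fun s => circ R s - b) (wd R b) :=
  one_lin hR (h.ne hR)

theorem Fr.norm_ld (h : Fr R b) (hR : 0 < R) (s : ℝ) :
    ‖deriv (fun s => circ R s - b) s / (circ R s - b)‖ ≤ 4 * Real.pi := by
  rw [deriv_circ_sub, norm_div, norm_mul, norm_circ hR.le]
  have e : ‖2 * (Real.pi : ℂ) * Complex.I‖ = 2 * Real.pi := by
    rw [norm_mul, norm_mul, Complex.norm_I, Complex.norm_real, Complex.norm_ofNat, mul_one,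
      Real.norm_eq_abs, abs_of_pos Real.pi_pos]
  have h1 := h.half_le hR s
  rw [e, div_le_iff₀ (by linarith)]
  nlinarith [Real.pi_pos]

/-- bounds for the logarithms -/
theorem Fr.abs_log_le (h : Fr R b) (hR : 0 < R) (h1 : Real.exp (-M) ≤ R) (h2 : R ≤ Real.exp M)
    (h3 : ‖b‖ ≤ Real.exp M) (s : ℝ) : |Real.log ‖circ R s - b‖| ≤ M + 1 := by
  have hl2 : Real.log 2 ≤ 1 := by linarith [Real.log_two_lt_d9]
  have h4 := h.half_le hR s
  have h5 : ‖circ R s - b‖ ≤ 2 * Real.exp M := by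
    have := norm_sub_le (circ R s) b
    rw [norm_circ hR.le] at this
    linarith
  have h6 : 0 < ‖circ R s - b‖ := by linarith
  rw [abs_le]
  constructor
  · have : Real.log (Real.exp (-M) / 2) ≤ Real.log ‖circ R s - b‖ :=
      Real.log_le_log (by positivity) (by linarith)
    rw [Real.log_div (Real.exp_pos _).ne' two_ne_zero, Real.log_exp] at this
    linarith
  · have := Real.log_le_log h6 h5
    rw [Real.log_mul two_ne_zero (Real.exp_pos _).ne', Real.log_exp] at this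
    linarith

theorem ld_div' (h : Fr R b) (h' : Fr R b') (hR : 0 < R) (s : ℝ) :
    deriv (fun s => (circ R s - b) / (circ R s - b')) s / ((circ R s - b) / (circ R s - b')) =
      deriv (fun s => circ R s - b) s / (circ R s - b) -
      deriv (fun s => circ R s - b') s / (circ R s - b') := by
  have h1 := ((h.one hR).smooth.differentiable (by norm_num)) s
  have h2 := ((h'.one hR).smooth.differentiable (by norm_num)) s
  rw [deriv_fun_div h1 h2 ((h'.one hR).ne_zero s)]
  have := (h.one hR).ne_zero s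
  have := (h'.one hR).ne_zero s
  field_simp

/-- the bound for the entry `(x - b)/(x - b')` -/
theorem norm_grow_quot {d : ℕ} (h : Fr R b) (h' : Fr R b') (hR : 0 < R)
    (h1 : Real.exp (-M) ≤ R) (h2 : R ≤ Real.exp M) (h3 : ‖b‖ ≤ Real.exp M)
    (h3' : ‖b'‖ ≤ Real.exp M) (hM : 0 ≤ M) (l : Fin d)
    {y : Fin (d + 1) → ℝ} (hy : y ∈ Icc (0 : Fin (d + 1) → ℝ) 1) (j : Fin (d + 1)) :
    ‖grow (fun θ : Fin d → ℝ => (circ R (θ l) - b) / (circ R (θ l) - b')) y j‖ ≤
      2 * (M + 1) + 16 * Real.pi := by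
  have hpi := Real.pi_gt_three
  refine norm_grow_le hy ?_ (fun j => ?_) j
  · rw [norm_div, Real.log_div (norm_ne_zero_iff.2 ((h.one hR).ne_zero _))
      (norm_ne_zero_iff.2 ((h'.one hR).ne_zero _))]
    have a1 := abs_le.1 (h.abs_log_le hR h1 h2 h3 (tl d y l))
    have a2 := abs_le.1 (h'.abs_log_le hR h1 h2 h3' (tl d y l))
    rw [abs_le]
    constructor <;> linarith [a1.1, a1.2, a2.1, a2.2]
  · have hone := (h.one hR).div (h'.one hR)
    have hb : ‖lw (fun θ : Fin d → ℝ => (circ R (θ l) - b) / (circ R (θ l) - b')) j (tl d y)‖ ≤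
        8 * Real.pi := by
      by_cases hj : j = l
      · subst hj
        have e := lw_vf_self hone.smooth j (tl d y)
        have e2 := ld_div' h h' hR (tl d y j)
        rw [e, e2]
        refine (norm_sub_le _ _).trans ?_
        linarith [h.norm_ld hR (tl d y j), h'.norm_ld hR (tl d y j)]
      · have e := lw_vf_ne hone.smooth hj (tl d y)
        rw [e, norm_zero]
        positivity
    linarith

end far

section prodF

variable {r : ℕ} {α : Fin (r + 1) → ℂ} {R : ℝ}

/-- `∏_i (x - α_i)` on the circle -/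
noncomputable def FF (α : Fin (r + 1) → ℂ) (R : ℝ) (θ : Fin 1 → ℝ) : ℂ :=
  ∏ i, (circ R (θ 0) - α i)

theorem good_FF (hR : 0 < R) (hα : ∀ i, Fr R (α i)) : Good (FF α R) :=
  good_prod Finset.univ fun i => ((hα i).one hR).good 0

theorem norm_lw_FF (hR : 0 < R) (hα : ∀ i, Fr R (α i)) (j : Fin 1) (θ : Fin 1 → ℝ) :
    ‖lw (FF α R) j θ‖ ≤ (r + 1) * (4 * Real.pi) := by
  have e : FF α R = fun θ => ∏ i, (circ R (θ 0) - α i) := rfl
  rw [e, lw_prod Finset.univ fun i => ((hα i).one hR).good 0]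
  have hj : j = 0 := Subsingleton.elim _ _
  subst hj
  refine (norm_sum_le _ _).trans ?_
  refine (Finset.sum_le_card_nsmul _ _ (4 * Real.pi) fun i _ => ?_).trans ?_
  · have h1 := lw_vf_self ((hα i).one hR).smooth (0 : Fin 1) θ
    rw [h1]
    exact (hα i).norm_ld hR (θ 0)
  · rw [Finset.card_univ, Fintype.card_fin, nsmul_eq_mul]
    push_cast
    exact le_refl _

/-- the exact value of the main term -/
noncomputable def Mv (α : Fin (r + 1) → ℂ) (l : ℂ) (R : ℝ) (b b' : ℂ) : ℝ :=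
  -(Real.log ‖l‖ * (wd R b - wd R b')) - ∑ i, (Real.log ‖α i - b‖ * (wd R b - wd R (α i)) -
    Real.log ‖α i - b'‖ * (wd R b' - wd R (α i)))

theorem pairing_w_eq (hR : 0 < R) (hα : ∀ i, Fr R (α i)) {l : ℂ} (hl : l ≠ 0) {b b' : ℂ}
    (hb : Fr R b) (hb' : Fr R b') :
    pairing (Fin.cons (fun θ => (l * FF α R θ)⁻¹)
      (vf fun _ : Fin 1 => fun s => (circ R s - b) / (circ R s - b'))) =
      2 * Real.pi * Mv α l R b b' := by
  have hV : ∀ k : Fin 1, One ((fun _ : Fin 1 => fun s => (circ R s - b) / (circ R s - b')) k)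
      ((fun _ : Fin 1 => wd R b - wd R b') k) := fun _ => (hb.one hR).div (hb'.one hR)
  rw [pairing_w (good_FF hR hα) hl hV]
  have e : FF α R = fun θ => ∏ i, (circ R (θ 0) - α i) := rfl
  rw [e, pairing_prod Finset.univ (fun i => ((hα i).one hR).good 0) hV]
  have h1 : ∀ i, pairing (Fin.cons (fun θ : Fin 1 → ℝ => circ R (θ 0) - α i)
      (vf fun _ : Fin 1 => fun s => (circ R s - b) / (circ R s - b'))) =
      2 * Real.pi * (Real.log ‖α i - b‖ * (wd R b - wd R (α i)) -
        Real.log ‖α i - b'‖ * (wd R b' - wd R (α i))) := by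
    intro i
    rw [pairing_lin_div hR ((hα i).ne hR) (hb.ne hR) (hb'.ne hR) hV 0 rfl]
    simp
  simp only [h1]
  rw [← Finset.mul_sum]
  unfold Mv
  simp
  ring

end prodF

section err

variable {r : ℕ} {α : Fin (r + 1) → ℂ} {R : ℝ} {g : ℂ → ℂ} {δ C W M : ℝ} {l b b' : ℂ}

theorem abs_pairing_nice (hR : 0 < R) (hα : ∀ i, Fr R (α i)) (hl : l ≠ 0)
    (hb : Fr R b) (hb' : Fr R b') (hg : Nice δ C g) (hC : 0 ≤ C)
    (hw : ∀ θ, ‖(l * FF α R θ)⁻¹‖ < δ) (hW : ∀ θ, ‖(l * FF α R θ)⁻¹‖ ≤ W)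
    (h1 : Real.exp (-M) ≤ R) (h2 : R ≤ Real.exp M) (h3 : ‖b‖ ≤ Real.exp M)
    (h3' : ‖b'‖ ≤ Real.exp M) (hM : 0 ≤ M) :
    |pairing (Fin.cons (fun θ => g (l * FF α R θ)⁻¹)
      (vf fun _ : Fin 1 => fun s => (circ R s - b) / (circ R s - b')))| ≤
      2 * Real.pi * |Real.log ‖g 0‖| +
        2 * ((C * W * (1 + 2 * ((r + 1) * (4 * Real.pi)))) * (2 * (M + 1) + 16 * Real.pi)) := by
  have hF := good_FF hR hα
  have hδ : 0 < δ := (norm_nonneg _).trans_lt (hw 0)
  have hg0 : g 0 ≠ 0 := (hg 0 (by simpa using hδ)).2.1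
  have hV : ∀ k : Fin 1, One ((fun _ : Fin 1 => fun s => (circ R s - b) / (circ R s - b')) k)
      ((fun _ : Fin 1 => wd R b - wd R b') k) := fun _ => (hb.one hR).div (hb'.one hR)
  have hv : ∀ k : Fin 1, Good ((vf fun _ : Fin 1 => fun s =>
      (circ R s - b) / (circ R s - b')) k) := fun k => (hV k).good k
  have hgc := good_comp hF hl hw hg
  have hg1 : Good fun θ => (g 0)⁻¹ * g (l * FF α R θ)⁻¹ :=
    (good_const (inv_ne_zero hg0)).mul hgc
  have e : (fun θ => g (l * FF α R θ)⁻¹) = fun θ => g 0 * ((g 0)⁻¹ * g (l * FF α R θ)⁻¹) := by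
    funext θ
    rw [← mul_assoc, mul_inv_cancel₀ hg0, one_mul]
  rw [e, pairing_cons_mul (good_const hg0) hg1 hv, pairing_const _ _ _ hV]
  have hwd : ∀ c : ℂ, 0 ≤ wd R c ∧ wd R c ≤ 1 := by
    intro c
    unfold wd
    split_ifs <;> norm_num
  have hpi := Real.pi_pos
  have a1 : |(2 * Real.pi) ^ 1 * Real.log ‖g 0‖ * ∏ _k : Fin 1, (wd R b - wd R b')| ≤
      2 * Real.pi * |Real.log ‖g 0‖| := by
    rw [pow_one, Finset.prod_const, Finset.card_univ, Fintype.card_fin, pow_one, abs_mul, abs_mul,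
      abs_of_pos (by positivity : (0 : ℝ) < 2 * Real.pi)]
    have h4 : |wd R b - wd R b'| ≤ 1 := by
      rw [abs_le]
      constructor <;> linarith [(hwd b).1, (hwd b).2, (hwd b').1, (hwd b').2]
    calc 2 * Real.pi * |Real.log ‖g 0‖| * |wd R b - wd R b'| ≤
        2 * Real.pi * |Real.log ‖g 0‖| * 1 := by gcongr
      _ = _ := mul_one _
  have hW0 : 0 ≤ W := (norm_nonneg _).trans (hW 0)
  have a2 : |pairing (Fin.cons (fun θ => (g 0)⁻¹ * g (l * FF α R θ)⁻¹)
      (vf fun _ : Fin 1 => fun s => (circ R s - b) / (circ R s - b')))| ≤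
      (1 + 1).factorial * ((C * W * (1 + 2 * ((r + 1) * (4 * Real.pi)))) *
        ∏ _k : Fin 1, (2 * (M + 1) + 16 * Real.pi)) := by
    refine abs_pairing_le (fun y hy j => ?_) (fun k y hy j => ?_)
    · have hlog : Real.log ‖(g 0)⁻¹ * g (l * FF α R (tl 1 y))⁻¹‖ =
          Real.log ‖g (l * FF α R (tl 1 y))⁻¹‖ - Real.log ‖g 0‖ := by
        rw [norm_mul, norm_inv, Real.log_mul (inv_ne_zero (norm_ne_zero_iff.2 hg0))
          (norm_ne_zero_iff.2 (hgc.ne_zero _)), Real.log_inv]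
        ring
      have hCW : C * ‖(l * FF α R (tl 1 y))⁻¹‖ ≤ C * W := by
        gcongr
        exact hW _
      refine norm_grow_le hy ?_ (fun j => ?_) j
      · rw [hlog]
        refine (Nice.log_sub_le hg (hw _)).trans (hCW.trans ?_)
        have : 0 ≤ C * W := mul_nonneg hC hW0
        nlinarith [mul_nonneg this (by positivity : (0 : ℝ) ≤ 2 * ((r + 1) * (4 * Real.pi)))]
      · have e3 : lw (fun θ => (g 0)⁻¹ * g (l * FF α R θ)⁻¹) j (tl 1 y) =
            lw (fun θ => g (l * FF α R θ)⁻¹) j (tl 1 y) := by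
          rw [lw_mul (good_const (inv_ne_zero hg0)) hgc, lw_const, zero_add]
        rw [e3, lw_comp hF hl hw hg, norm_neg, norm_mul, norm_mul]
        have h5 := (hg _ (hw (tl 1 y))).2.2.2
        have h6 := norm_lw_FF hR hα j (tl 1 y)
        have h7 : ‖deriv g (l * FF α R (tl 1 y))⁻¹ / g (l * FF α R (tl 1 y))⁻¹‖ *
            ‖(l * FF α R (tl 1 y))⁻¹‖ * ‖lw (FF α R) j (tl 1 y)‖ ≤
            C * W * ((r + 1) * (4 * Real.pi)) := by
          refine mul_le_mul (mul_le_mul h5 (hW _) (norm_nonneg _) hC) h6 (norm_nonneg _)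
            (mul_nonneg hC hW0)
        have : 0 ≤ C * W := mul_nonneg hC hW0
        linarith
    · exact norm_grow_quot hb hb' hR h1 h2 h3 h3' hM k hy j
  rw [Finset.prod_const, Finset.card_univ, Fintype.card_fin, pow_one] at a2
  have e4 : (((1 + 1).factorial : ℕ) : ℝ) = 2 := by norm_num [Nat.factorial]
  rw [e4] at a2
  exact (abs_add_le _ _).trans (add_le_add a1 a2)

end err

end Pool.Agent.TH265.U
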