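import Pool.Agent.TH265.U.Geo
set_option autoImplicit false

/-!
The loops in the curves and the regulators of the symbols on them.
-/

namespace Pool.Agent.TH265.U

open Pool.Agent.TH826.MK
open Pool.Agent.TH826.MH (Nice good_w good_comp pairing_w pairing_cons_div0 wt
  abs_wt_le exists_branch mkT evX evX_fpol mkT_ux ux fpol)
open MeasureTheory Set

universe v

section gen

variable {A : Type*} [CommRing A] {d : ℕ} (Γ : Torus A d)

theorem fn_div (a b : Aˣ) (θ : Fin d → ℝ) :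
    Γ.fn ((a / b : Aˣ) : A) θ = Γ.fn (a : A) θ / Γ.fn (b : A) θ := by
  have h3 := (Γ.good b).ne_zero θ
  have h6 : Γ.fn ((a / b : Aˣ) : A) θ * Γ.fn (b : A) θ = Γ.fn (a : A) θ := by
    unfold Torus.fn
    rw [← map_mul, ← Units.val_mul, div_mul_cancel]
  rw [eq_div_iff h3]
  exact h6

end gen

theorem map_lm {K : Type*} [Field K] (σ : K →+* ℂ) (r : ℕ) (e : K) : σ (lm r e) = lm r (σ e) := by
  unfold lm
  rw [map_neg, map_inv₀, map_prod]
  congr 2
  refine Finset.prod_congr rfl fun i _ => ?_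
  rw [map_neg, map_pow]

theorem lm_ne_zero {K : Type*} [Field K] (r : ℕ) {e : K} (he : e ≠ 0) : lm r e ≠ 0 := by
  unfold lm
  exact neg_ne_zero.2 (inv_ne_zero (Finset.prod_ne_zero_iff.2 fun i _ =>
    neg_ne_zero.2 (pow_ne_zero _ he)))

theorem exp_bound {L : ℝ} (hL : 0 ≤ L) (r : ℕ) :
    Real.exp (-(L / 2)) * (2 * (r * L + 1) + 16 * Real.pi) ≤ 4 * r + 2 + 16 * Real.pi := by
  have h1 : L / 2 + 1 ≤ Real.exp (L / 2) := Real.add_one_le_exp _
  have h2 : 0 < Real.exp (L / 2) := Real.exp_pos _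
  have hpi := Real.pi_pos
  rw [Real.exp_neg, inv_mul_le_iff₀ h2]
  have hr : (0 : ℝ) ≤ r := Nat.cast_nonneg _
  have h3 : 2 * ((r : ℝ) * L + 1) + 16 * Real.pi ≤ (L / 2 + 1) * (4 * r + 2 + 16 * Real.pi) := by
    nlinarith [mul_nonneg hL hr, mul_nonneg hL hpi.le]
  refine h3.trans ?_
  exact mul_le_mul_of_nonneg_right h1 (by positivity)

theorem exists_loop (p r : ℕ) (ω : ℂ) (hω : IsPrimitiveRoot ω (p + 1)) (j0 : Fin p) :
    ∃ L0 B : ℝ, ∀ {K : Type v} [Field K] (σ : K →+* ℂ) (ζ e : K), σ ζ = ω → e ≠ 0 →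
      L0 ≤ |Real.log ‖σ e‖| → ∀ t < r, ∃ Γ : Torus (Opn p r ζ e) 1,
        (∀ θ x, Γ.e θ (cst0 p r ζ e x) = σ x) ∧
        ∀ q : Fin (r + 1) × Fin p, |Γ.reg (symb (sym p r ζ e q)) -
          2 * Real.pi * (wt j0 q.2 * Mt (σ e) r t q.1)| ≤ B := by
  set β : Fin (p + 1) → ℂ := fun j => ω ^ (j : ℕ) with hβ
  have hβi : Function.Injective β := by
    intro i j hij
    exact Fin.ext (hω.pow_inj i.isLt j.isLt hij)
  obtain ⟨G, g, δ, C, hδ, hG, hg⟩ := exists_branch β hβi j0.castSucc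
  have hC : 0 ≤ C := (abs_nonneg _).trans ((hg 0) 0 (by simpa using hδ)).2.2.1
  have hpi := Real.pi_pos
  set Eb : ℝ := 2 * Real.pi * C + 2 * (C * (1 + 2 * ((r + 1) * (4 * Real.pi))) *
    (2 ^ (r + 1) * (4 * r + 2 + 16 * Real.pi))) with hEb
  refine ⟨2 * Real.log 2 + 2 * |Real.log (δ / 2 ^ (r + 2))|,
    2 * Real.pi * ((r + 1) * Real.log 2) + 2 * Eb, ?_⟩
  intro K _ σ ζ e hζ he hL t ht
  set u : ℂ := σ e with hu'
  have hu : u ≠ 0 := (map_ne_zero σ).2 he
  set L : ℝ := |Real.log ‖u‖| with hLdef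
  have hL0 : 0 ≤ L := abs_nonneg _
  have hL2 : 2 * Real.log 2 ≤ L := by
    have := abs_nonneg (Real.log (δ / 2 ^ (r + 2)))
    linarith
  set l : ℂ := lm r u with hl'
  have hl : l ≠ 0 := lm_ne_zero r hu
  set α : Fin (r + 1) → ℂ := fun i => u ^ (i : ℕ) with hα'
  set R : ℝ := Rd u t with hR'
  have hR : 0 < R := Rd_pos u t
  have hα : ∀ i, Fr R (α i) := fun i => fr_pow hu hL2 i t
  have hF := good_FF hR hα
  set W : ℝ := 2 ^ (r + 1) * Real.exp (-(L / 2)) with hW'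
  have hW : ∀ θ, ‖(l * FF α R θ)⁻¹‖ ≤ W := fun θ => norm_w_le hu hL2 ht θ
  have hWδ : W < δ := by
    have h1 : Real.exp (-(L / 2)) ≤ δ / 2 ^ (r + 2) := by
      have h2 : -(L / 2) ≤ Real.log (δ / 2 ^ (r + 2)) := by
        have h3 := neg_abs_le (Real.log (δ / 2 ^ (r + 2)))
        have h4 : 0 < Real.log 2 := Real.log_pos (by norm_num)
        linarith
      refine (Real.exp_le_exp.2 h2).trans (le_of_eq ?_)
      exact Real.exp_log (by positivity)
    calc W ≤ 2 ^ (r + 1) * (δ / 2 ^ (r + 2)) := by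
          rw [hW']
          gcongr
      _ = δ / 2 := by
          rw [pow_succ 2 (r + 1)]
          field_simp
      _ < δ := by linarith
  have hw : ∀ θ, ‖(l * FF α R θ)⁻¹‖ < δ := fun θ => (hW θ).trans_lt hWδ
  -- the point
  set X : (Fin 1 → ℝ) → (Fin (1 + 1) → ℂ) := fun θ =>
    Fin.cons (G (l * FF α R θ)⁻¹) (fun _ => circ R (θ 0)) with hX
  have hX0 : ∀ θ, X θ 0 = G (l * FF α R θ)⁻¹ := fun θ => rfl
  have hXs : ∀ θ (k : Fin 1), X θ k.succ = circ R (θ 0) := fun θ k => rfl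
  have hXc : ContDiff ℝ 2 X := by
    refine contDiff_pi.2 fun k => ?_
    refine Fin.cases ?_ (fun k => ?_) k
    · simp only [hX0]
      rw [contDiff_iff_contDiffAt]
      intro θ
      exact (((hG _ (hw θ)).1.contDiffAt (n := 2)).restrict_scalars ℝ).comp θ
        (good_w hF hl).smooth.contDiffAt
    · simp only [hXs]
      exact (contDiff_circ R).comp (contDiff_apply ℝ ℝ 0)
  have hcp : ∀ (θ : Fin 1 → ℝ) (i : Fin 1),
      circ R ((θ + Pi.single i 1 : Fin 1 → ℝ) 0) = circ R (θ 0) := by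
    intro θ i
    exact congrFun (tpt_add_single (fun _ => R) θ i) 0
  have hFp : ∀ θ i, FF α R (θ + Pi.single i 1) = FF α R θ := by
    intro θ i
    unfold FF
    simp only [hcp]
  have hXp : ∀ θ i, X (θ + Pi.single i 1) = X θ := by
    intro θ i
    funext k
    refine Fin.cases ?_ (fun k => ?_) k
    · rw [hX0, hX0, hFp]
    · rw [hXs, hXs, hcp]
  have hXx : ∀ θ, σ (lm r e) * ∏ k, ∏ i, (X θ k - σ (rts p r ζ e k i)) = 1 := by
    intro θ
    rw [Fin.prod_univ_two, map_lm]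
    have h1 : ∏ i, (X θ 0 - σ (rts p r ζ e 0 i)) = (l * FF α R θ)⁻¹ := by
      rw [← (hG _ (hw θ)).2.1]
      refine Finset.prod_congr rfl fun i _ => ?_
      show G (l * FF α R θ)⁻¹ - σ (ζ ^ (i : ℕ)) = _
      rw [map_pow, hζ]
    have h2 : ∏ i, (X θ 1 - σ (rts p r ζ e 1 i)) = FF α R θ := by
      unfold FF
      refine Finset.prod_congr rfl fun i _ => ?_
      show circ R (θ 0) - σ (e ^ (i : ℕ)) = _
      rw [map_pow]
    rw [h1, h2]
    have h3 := hF.ne_zero θ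
    rw [← hl']
    field_simp
  set Γ0 : Torus (Crv p r ζ e) 1 := mkT X hXc hXp hXx with hΓ0
  have hΓX : ∀ θ, Γ0.e θ (fX p r ζ e) = circ R (θ 0) := by
    intro θ
    show evX (hXx θ) (fpol _ _ (MvPolynomial.X 1)) = _
    rw [evX_fpol]
    simp only [MvPolynomial.coe_eval₂Hom, MvPolynomial.eval₂_X]
    rfl
  have hΓX0 : ∀ θ, Γ0.e θ (fX p r ζ e) ≠ 0 := by
    intro θ
    rw [hΓX]
    have h1 : ‖circ R (θ 0)‖ = R := norm_circ hR.le _
    intro h2
    rw [h2, norm_zero] at h1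
    exact hR.ne h1
  refine ⟨extTorus (fX p r ζ e) Γ0 hΓX0, fun θ x => ?_, fun q => ?_⟩
  · show (extTorus (fX p r ζ e) Γ0 hΓX0).e θ (toLoc (fX p r ζ e)
      (fpol _ _ (MvPolynomial.C x))) = σ x
    rw [extTorus_toLoc]
    show evX (hXx θ) (fpol _ _ (MvPolynomial.C x)) = σ x
    rw [evX_fpol]
    simp
  rw [Torus.reg_symb]
  unfold Torus.pair
  set Γ := extTorus (fX p r ζ e) Γ0 hΓX0 with hΓ
  have hfY : ∀ j, Γ.fn (uY p r ζ e j : Opn p r ζ e) = fun θ => G (l * FF α R θ)⁻¹ - β j := by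
    intro j
    funext θ
    have h1 : Γ.fn (uY p r ζ e j : Opn p r ζ e) θ =
        Γ0.fn (ux (lm r e) (rts p r ζ e) 0 j : Crv p r ζ e) θ :=
      extTorus_toLoc (fX p r ζ e) Γ0 hΓX0 _ θ
    rw [h1, hΓ0, mkT_ux X hXc hXp hXx 0 j]
    show X θ 0 - σ (ζ ^ (j : ℕ)) = _
    rw [map_pow, hζ, hX0]
  have hfE : ∀ j, Γ.fn (uE p r ζ e j : Opn p r ζ e) = fun θ => circ R (θ 0) - α j := by
    intro j
    funext θ
    have h1 : Γ.fn (uE p r ζ e j : Opn p r ζ e) θ =
        Γ0.fn (ux (lm r e) (rts p r ζ e) 1 j : Crv p r ζ e) θ :=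
      extTorus_toLoc (fX p r ζ e) Γ0 hΓX0 _ θ
    rw [h1, hΓ0, mkT_ux X hXc hXp hXx 1 j]
    show X θ 1 - σ (e ^ (j : ℕ)) = _
    rw [map_pow]
    rfl
  have hfX : Γ.fn (uX p r ζ e : Opn p r ζ e) = fun θ => circ R (θ 0) - 0 := by
    funext θ
    have h1 : Γ.fn (uX p r ζ e : Opn p r ζ e) θ = Γ0.e θ (fX p r ζ e) :=
      extTorus_toLoc (fX p r ζ e) Γ0 hΓX0 _ θ
    rw [h1, hΓX, sub_zero]
  set V : Fin 1 → ℝ → ℂ := fun _ s => (circ R s - u ^ (q.1 : ℕ)) / (circ R s - 0) with hV'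
  have e1 : (fun k => Γ.fn (sym p r ζ e q k : Opn p r ζ e)) =
      (Fin.cons (fun θ => (G (l * FF α R θ)⁻¹ - β q.2.castSucc) /
        (G (l * FF α R θ)⁻¹ - β q.2.succ)) (vf V) : Fin (1 + 1) → (Fin 1 → ℝ) → ℂ) := by
    funext k
    refine Fin.cases ?_ (fun k => ?_) k
    · funext θ
      rw [Fin.cons_zero]
      have h1 : sym p r ζ e q 0 = uY p r ζ e q.2.castSucc / uY p r ζ e q.2.succ := rfl
      rw [h1, fn_div, hfY, hfY]
    · funext θ
      rw [Fin.cons_succ]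
      have hk : k = 0 := Subsingleton.elim _ _
      subst hk
      have h1 : sym p r ζ e q (Fin.succ 0) = uE p r ζ e q.1 / uX p r ζ e := rfl
      rw [h1, fn_div, hfE, hfX]
      rfl
  rw [e1]
  have hb : Fr R (u ^ (q.1 : ℕ)) := fr_pow hu hL2 _ t
  have hb0 : Fr R 0 := fr_zero u t
  have hV : ∀ k : Fin 1, One (V k) ((fun _ : Fin 1 => wd R (u ^ (q.1 : ℕ)) - wd R 0) k) :=
    fun _ => (hb.one hR).div (hb0.one hR)
  have hv : ∀ k, Good (vf V k) := fun k => (hV k).good k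
  have hgood : ∀ j, Good fun θ => G (l * FF α R θ)⁻¹ - β j := by
    intro j
    have h1 : (fun θ => G (l * FF α R θ)⁻¹ - β j) = fun θ =>
        (if j = j0.castSucc then (l * FF α R θ)⁻¹ else 1) * g j (l * FF α R θ)⁻¹ := by
      funext θ
      exact (hG _ (hw θ)).2.2 j
    rw [h1]
    refine Good.mul ?_ (good_comp hF hl hw (hg j))
    by_cases h : j = j0.castSucc
    · simp only [h, if_true]
      exact good_w hF hl
    · simp only [h, if_false]
      exact good_const one_ne_zero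
  have hpair : ∀ j, pairing (Fin.cons (fun θ => G (l * FF α R θ)⁻¹ - β j) (vf V)) =
      (if j = j0.castSucc then 1 else 0) *
        (2 * Real.pi * Mv α l R (u ^ (q.1 : ℕ)) 0) +
      pairing (Fin.cons (fun θ => g j (l * FF α R θ)⁻¹) (vf V)) := by
    intro j
    have h1 : (fun θ => G (l * FF α R θ)⁻¹ - β j) = fun θ =>
        (if j = j0.castSucc then (l * FF α R θ)⁻¹ else 1) * g j (l * FF α R θ)⁻¹ := by
      funext θ
      exact (hG _ (hw θ)).2.2 j
    rw [h1]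
    by_cases h : j = j0.castSucc
    · simp only [h, if_true]
      rw [pairing_cons_mul (good_w hF hl) (good_comp hF hl hw (hg _)) hv,
        pairing_w_eq hR hα hl hb hb0]
      ring
    · simp only [h, if_false, one_mul]
      ring
  rw [pairing_cons_div0 (hgood _) (hgood _) hV, hpair, hpair]
  have ht' : (t : ℝ) + 1 ≤ r := by exact_mod_cast ht
  have ht0 : (0 : ℝ) ≤ t := Nat.cast_nonneg _
  have hr0 : (0 : ℝ) ≤ r := Nat.cast_nonneg _
  have hRexp : |((t : ℝ) + 1 / 2) * Real.log ‖u‖| ≤ r * L := by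
    rw [abs_mul, abs_of_nonneg (by linarith : (0 : ℝ) ≤ (t : ℝ) + 1 / 2)]
    exact mul_le_mul_of_nonneg_right (by linarith) hL0
  have hE : ∀ j, |pairing (Fin.cons (fun θ => g j (l * FF α R θ)⁻¹) (vf V))| ≤ Eb := by
    intro j
    have h1 := abs_pairing_nice (M := r * L) hR hα hl hb hb0 (hg j) hC hw hW
      (Real.exp_le_exp.2 (by linarith [(abs_le.1 hRexp).1]))
      (Real.exp_le_exp.2 (abs_le.1 hRexp).2)
      (by
        rw [norm_pow_eq hu, Real.exp_le_exp]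
        refine (le_abs_self _).trans ?_
        rw [abs_mul, Nat.abs_cast]
        refine mul_le_mul_of_nonneg_right ?_ hL0
        exact_mod_cast Nat.lt_succ_iff.1 q.1.isLt)
      (by rw [norm_zero]; exact (Real.exp_pos _).le) (by positivity)
    refine h1.trans ?_
    have h2 : |Real.log ‖g j 0‖| ≤ C := ((hg j) 0 (by simpa using hδ)).2.2.1
    have h3 := exp_bound hL0 r
    have h4 : C * W * (1 + 2 * ((r + 1) * (4 * Real.pi))) * (2 * (r * L + 1) + 16 * Real.pi) =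
        C * (1 + 2 * ((r + 1) * (4 * Real.pi))) * (2 ^ (r + 1) *
          (Real.exp (-(L / 2)) * (2 * (r * L + 1) + 16 * Real.pi))) := by
      rw [hW']
      ring
    rw [h4, hEb]
    gcongr
  have b1 := hE q.2.castSucc
  have b2 := hE q.2.succ
  have b3 := abs_Mv_sub_Mt (r := r) hu hL2 (q.1 : ℕ) t
  set p1 := pairing (Fin.cons (fun θ => g q.2.castSucc (l * FF α R θ)⁻¹) (vf V)) with hp1
  set p2 := pairing (Fin.cons (fun θ => g q.2.succ (l * FF α R θ)⁻¹) (vf V)) with hp2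
  set m1 := Mv α l R (u ^ (q.1 : ℕ)) 0 with hm1
  set m2 := Mt u r t (q.1 : ℕ) with hm2
  have e2 : (if q.2.castSucc = j0.castSucc then (1 : ℝ) else 0) * (2 * Real.pi * m1) + p1 -
      ((if q.2.succ = j0.castSucc then 1 else 0) * (2 * Real.pi * m1) + p2) -
      2 * Real.pi * (wt j0 q.2 * m2) = 2 * Real.pi * (wt j0 q.2 * (m1 - m2)) + p1 - p2 := by
    unfold wt
    ring
  rw [e2]
  have b4 : |2 * Real.pi * (wt j0 q.2 * (m1 - m2))| ≤ 2 * Real.pi * ((r + 1) * Real.log 2) := by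
    rw [abs_mul, abs_of_pos (by positivity : (0 : ℝ) < 2 * Real.pi), abs_mul]
    refine mul_le_mul_of_nonneg_left ?_ (by positivity)
    calc |wt j0 q.2| * |m1 - m2| ≤ 1 * |m1 - m2| :=
          mul_le_mul_of_nonneg_right (abs_wt_le _ _) (abs_nonneg _)
      _ = |m1 - m2| := one_mul _
      _ ≤ _ := b3
  have c1 := abs_le.1 b1
  have c2 := abs_le.1 b2
  have c4 := abs_le.1 b4
  rw [abs_le]
  constructor <;> linarith [c1.1, c1.2, c2.1, c2.2, c4.1, c4.2]

end Pool.Agent.TH265.U
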